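import Pool.Agent.U409.SH.Sel1
import Pool.Agent.W214.RK.Half
import Pool.Agent.W505.RK.RKB

/-!
# The rank and the 2-torsion of the Tate-Shafarevich group
-/

set_option autoImplicit false

namespace Pool.Agent.U409.SH

open WeierstrassCurve
open Pool.Agent.W262.SH (QB Pt act IsCoc IsCob LocTriv shaCoc cob Sha E IsSel)
open Pool.Agent.TH841.SH (IsR IsX act_some act_inj act_act)

open scoped Classical

section gen

variable {W : WeierstrassCurve ℚ}

lemma act_mul (σ τ : QB ≃ₐ[ℚ] QB) (P : Pt W QB) :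
    act W (σ * τ).toAlgHom P = act W σ.toAlgHom (act W τ.toAlgHom P) := by
  rw [act_act]
  rfl

/-- evaluation at an algebraic number is locally constant -/
lemma lc_apply (x : QB) : IsLocallyConstant (fun σ : QB ≃ₐ[ℚ] QB => σ x) := by
  rw [IsLocallyConstant.iff_exists_open]
  intro σ
  have hx : IsIntegral ℚ x := Algebra.IsIntegral.isIntegral x
  have : FiniteDimensional ℚ (IntermediateField.adjoin ℚ {x}) :=
    IntermediateField.adjoin.finiteDimensional hx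
  refine ⟨(fun τ => σ⁻¹ * τ) ⁻¹'
    ((IntermediateField.adjoin ℚ {x}).fixingSubgroup : Set (QB ≃ₐ[ℚ] QB)),
    (IntermediateField.fixingSubgroup_isOpen _).preimage (continuous_const_mul _), ?_, ?_⟩
  · show σ⁻¹ * σ ∈ (IntermediateField.adjoin ℚ {x}).fixingSubgroup
    rw [inv_mul_cancel]
    exact one_mem _
  · intro τ hτ
    have h1 : σ⁻¹ * τ ∈ (IntermediateField.adjoin ℚ {x}).fixingSubgroup := hτ
    rw [IntermediateField.mem_fixingSubgroup_iff] at h1
    have h2 := h1 x (IntermediateField.mem_adjoin_simple_self ℚ x)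
    rw [AlgEquiv.mul_apply] at h2
    have h3 := congrArg σ h2
    rw [← AlgEquiv.mul_apply, mul_inv_cancel, AlgEquiv.one_apply] at h3
    exact h3

lemma lc_act (Q : Pt W QB) :
    IsLocallyConstant (fun σ : QB ≃ₐ[ℚ] QB => act W σ.toAlgHom Q) := by
  rcases Q with _ | ⟨x, y, h⟩
  · have e : (fun σ : QB ≃ₐ[ℚ] QB => act W σ.toAlgHom (Affine.Point.zero : Pt W QB)) =
        fun _ => (0 : Pt W QB) := by
      funext σ
      exact map_zero _
    rw [e]
    exact IsLocallyConstant.const _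
  · rw [IsLocallyConstant.iff_eventually_eq]
    intro σ
    have h1 := ((IsLocallyConstant.iff_eventually_eq _).1 (lc_apply x)) σ
    have h2 := ((IsLocallyConstant.iff_eventually_eq _).1 (lc_apply y)) σ
    filter_upwards [h1, h2] with τ h3 h4
    rw [act_some, act_some, Affine.Point.some.injEq]
    exact ⟨h3, h4⟩

/-- the coboundary -/
noncomputable def kf (Q : Pt W QB) : (QB ≃ₐ[ℚ] QB) → Pt W QB :=
  fun σ => act W σ.toAlgHom Q - Q

lemma kf_lc (Q : Pt W QB) : IsLocallyConstant (kf Q) :=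
  (lc_act Q).comp (fun P => P - Q)

lemma kf_loc (Q : Pt W QB) (K : Type) [Field K] [Algebra ℚ K] : LocTriv W K (kf Q) := by
  intro ι
  refine ⟨act W ι Q, fun τ σ h => ?_⟩
  unfold kf
  rw [map_sub, act_act, act_act, h]

lemma kf_mul (Q : Pt W QB) (σ τ : QB ≃ₐ[ℚ] QB) :
    kf Q (σ * τ) = kf Q σ + act W σ.toAlgHom (kf Q τ) := by
  unfold kf
  rw [act_mul, map_sub]
  abel

lemma loc_sub {K : Type} [Field K] [Algebra ℚ K] {f g : (QB ≃ₐ[ℚ] QB) → Pt W QB}
    (hf : LocTriv W K f) (hg : LocTriv W K g) : LocTriv W K (fun σ => f σ - g σ) := by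
  intro ι
  obtain ⟨P, hP⟩ := hf ι
  obtain ⟨Q, hQ⟩ := hg ι
  refine ⟨P - Q, fun τ σ h => ?_⟩
  rw [map_sub, map_sub, hP τ σ h, hQ τ σ h]
  abel

/-- the inclusion of the rational points -/
noncomputable def incl (W : WeierstrassCurve ℚ) : Pt W ℚ →+ Pt W QB :=
  WeierstrassCurve.Affine.Point.map (W' := W.toAffine) (Algebra.ofId ℚ QB)

lemma incl_inj : Function.Injective (incl W) := Affine.Point.map_injective _

lemma incl_some {x y : ℚ} (h : (W.baseChange ℚ).toAffine.Nonsingular x y) :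
    incl W (.some x y h) = .some (algebraMap ℚ QB x) (algebraMap ℚ QB y)
      ((Affine.baseChange_nonsingular W (Algebra.ofId ℚ QB).injective ..).mpr h) := rfl

lemma incl_fixed (S : Pt W ℚ) (σ : QB ≃ₐ[ℚ] QB) : act W σ.toAlgHom (incl W S) = incl W S := by
  rcases S with _ | ⟨x, y, h⟩
  · exact map_zero _
  · rw [incl_some, act_some, Affine.Point.some.injEq]
    exact ⟨σ.commutes x, σ.commutes y⟩

lemma of_fixed (P : Pt W QB) (h : ∀ σ : QB ≃ₐ[ℚ] QB, act W σ.toAlgHom P = P) :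
    ∃ S : Pt W ℚ, incl W S = P := by
  rcases P with _ | ⟨x, y, hn⟩
  · exact ⟨0, map_zero _⟩
  · have h1 : ∀ σ : QB ≃ₐ[ℚ] QB, σ x = x ∧ σ y = y := by
      intro σ
      have h2 := h σ
      rw [act_some, Affine.Point.some.injEq] at h2
      exact h2
    obtain ⟨x0, rfl⟩ := Pool.Agent.TH841.SH.fix_mem x (fun σ => (h1 σ).1)
    obtain ⟨y0, rfl⟩ := Pool.Agent.TH841.SH.fix_mem y (fun σ => (h1 σ).2)
    exact ⟨.some x0 y0 ((Affine.baseChange_nonsingular W (Algebra.ofId ℚ QB).injective ..).mp hn),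
      rfl⟩

end gen

section two

variable {A B : ℤ} (hA : A ≠ 0) (hB : B ≠ 0) (hAB : A ≠ B)

include hA hB hAB

lemma act_two {T : Pt (E A B) QB} (hT : T + T = 0) (σ : QB ≃ₐ[ℚ] QB) :
    act (E A B) σ.toAlgHom T = T := by
  rcases ((isR A B).base QB).tors two_ne_zero hT with rfl | ⟨h, rfl⟩ | ⟨h, rfl⟩ | ⟨h, rfl⟩
  · exact map_zero _
  all_goals
    rw [act_some, Affine.Point.some.injEq]
    exact ⟨σ.commutes _, map_zero σ⟩

/-- halves of a rational point give Selmer homomorphisms -/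
lemma kf_sel {Q : Pt (E A B) QB} {S : Pt (E A B) ℚ} (h : Q + Q = incl (E A B) S) :
    IsSel A B (kf Q) := by
  have h2 : ∀ σ, kf Q σ + kf Q σ = 0 := by
    intro σ
    have e : kf Q σ + kf Q σ = act (E A B) σ.toAlgHom (Q + Q) - (Q + Q) := by
      unfold kf
      rw [map_add]
      abel
    rw [e, h, incl_fixed, sub_self]
  refine ⟨kf_lc Q, h2, fun σ τ => ?_, fun p _ _ => kf_loc Q _⟩
  rw [kf_mul, act_two hA hB hAB (h2 τ)]

/-- a class of order two gives a Selmer homomorphism -/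
lemma exists_sel {f : (QB ≃ₐ[ℚ] QB) → Pt (E A B) QB} (hf : f ∈ shaCoc (E A B))
    (h2f : f + f ∈ cob (E A B)) : ∃ Q : Pt (E A B) QB, IsSel A B (fun σ => f σ - kf Q σ) := by
  obtain ⟨P, hP⟩ := h2f
  have hinj : Function.Injective (algebraMap ℚ QB) := (algebraMap ℚ QB).injective
  have hA' : (0 : ℚ) ≠ (A : ℚ) := fun h => hA (by exact_mod_cast h.symm)
  have hB' : (0 : ℚ) ≠ (B : ℚ) := fun h => hB (by exact_mod_cast h.symm)
  have hAB' : (A : ℚ) ≠ (B : ℚ) := fun h => hAB (by exact_mod_cast h)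
  obtain ⟨Q, rfl⟩ := ((isR A B).base QB).div two_ne_zero (hinj.ne hA') (hinj.ne hB')
    (hinj.ne hAB') P
  obtain ⟨⟨h1, h2⟩, h3, h4⟩ := hf
  refine ⟨Q, ?_⟩
  have k2 : ∀ σ, (f σ - kf Q σ) + (f σ - kf Q σ) = 0 := by
    intro σ
    have e1 : f σ + f σ = act (E A B) σ.toAlgHom (Q + Q) - (Q + Q) := hP σ
    have e2 : (f σ - kf Q σ) + (f σ - kf Q σ) = (f σ + f σ) -
        (act (E A B) σ.toAlgHom (Q + Q) - (Q + Q)) := by
      unfold kf
      rw [map_add]
      abel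
    rw [e2, e1, sub_self]
  refine ⟨h1.sub (kf_lc Q), k2, fun σ τ => ?_, fun p _ _ => loc_sub (h3 p) (kf_loc Q _)⟩
  have e3 := act_two hA hB hAB (k2 τ) σ
  rw [map_sub] at e3
  simp only
  rw [h2, kf_mul, ← e3]
  abel

/-- SH2: the rank and the Tate-Shafarevich group -/
theorem sh2 (hfin : {h | IsSel A B h}.Finite) :
    Finite {c : Sha (E A B) // c + c = 0} ∧
    2 ^ Module.finrank ℤ (E A B).toAffine.Point * Nat.card {c : Sha (E A B) // c + c = 0} ≤
      {h | IsSel A B h}.ncard := by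
  have hinj : Function.Injective (algebraMap ℚ QB) := (algebraMap ℚ QB).injective
  have hA' : (0 : ℚ) ≠ (A : ℚ) := fun h => hA (by exact_mod_cast h.symm)
  have hB' : (0 : ℚ) ≠ (B : ℚ) := fun h => hB (by exact_mod_cast h.symm)
  have hAB' : (A : ℚ) ≠ (B : ℚ) := fun h => hAB (by exact_mod_cast h)
  -- the halves
  have hhalf : ∀ S : Pt (E A B) ℚ, ∃ R : Pt (E A B) QB, R + R = incl (E A B) S := by
    intro S
    obtain ⟨R, hR⟩ := ((isR A B).base QB).div two_ne_zero (hinj.ne hA') (hinj.ne hB')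
      (hinj.ne hAB') (incl (E A B) S)
    exact ⟨R, hR.symm⟩
  choose hf hhf using hhalf
  -- representatives of the classes
  have hcls : ∀ c : {c : Sha (E A B) // c + c = 0}, ∃ (f : shaCoc (E A B)) (Q : Pt (E A B) QB),
      (QuotientAddGroup.mk f : Sha (E A B)) = c.1 ∧
        IsSel A B (fun σ => (f : (QB ≃ₐ[ℚ] QB) → Pt (E A B) QB) σ - kf Q σ) := by
    rintro ⟨c, hc⟩
    obtain ⟨f, rfl⟩ := QuotientAddGroup.mk_surjective c
    rw [← QuotientAddGroup.mk_add, QuotientAddGroup.eq_zero_iff, AddSubgroup.mem_addSubgroupOf] at hc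
    obtain ⟨Q, hQ⟩ := exists_sel hA hB hAB f.2 hc
    exact ⟨f, Q, rfl, hQ⟩
  choose fc Qc hfc hQc using hcls
  let D : AddSubgroup (Pt (E A B) ℚ) := (nsmulAddMonoidHom 2 : Pt (E A B) ℚ →+ _).range
  let rt : (Pt (E A B) ℚ ⧸ D) → Pt (E A B) QB := fun t => hf t.out
  let Φ : (Pt (E A B) ℚ ⧸ D) × {c : Sha (E A B) // c + c = 0} → {h // IsSel A B h} := fun x =>
    ⟨fun σ => kf (rt x.1) σ + ((fc x.2 : (QB ≃ₐ[ℚ] QB) → Pt (E A B) QB) σ - kf (Qc x.2) σ), by
      obtain ⟨a1, a2, a3, a4⟩ := kf_sel hA hB hAB (hhf x.1.out)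
      obtain ⟨b1, b2, b3, b4⟩ := hQc x.2
      refine ⟨a1.add b1, fun σ => ?_, fun σ τ => ?_, fun p _ hp => ?_⟩
      · have e1 : kf (rt x.1) σ + kf (rt x.1) σ = 0 := a2 σ
        have e2 : ((fc x.2 : (QB ≃ₐ[ℚ] QB) → Pt (E A B) QB) σ - kf (Qc x.2) σ) +
            ((fc x.2 : (QB ≃ₐ[ℚ] QB) → Pt (E A B) QB) σ - kf (Qc x.2) σ) = 0 := b2 σ
        show (kf (rt x.1) σ + ((fc x.2 : (QB ≃ₐ[ℚ] QB) → Pt (E A B) QB) σ - kf (Qc x.2) σ)) +
          (kf (rt x.1) σ + ((fc x.2 : (QB ≃ₐ[ℚ] QB) → Pt (E A B) QB) σ - kf (Qc x.2) σ)) = 0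
        rw [add_add_add_comm, e1, e2, add_zero]
      · have e1 : kf (rt x.1) (σ * τ) = kf (rt x.1) σ + kf (rt x.1) τ := a3 σ τ
        have e2 : (fc x.2 : (QB ≃ₐ[ℚ] QB) → Pt (E A B) QB) (σ * τ) - kf (Qc x.2) (σ * τ) =
            ((fc x.2 : (QB ≃ₐ[ℚ] QB) → Pt (E A B) QB) σ - kf (Qc x.2) σ) +
            ((fc x.2 : (QB ≃ₐ[ℚ] QB) → Pt (E A B) QB) τ - kf (Qc x.2) τ) := b3 σ τ
        show kf (rt x.1) (σ * τ) +
          ((fc x.2 : (QB ≃ₐ[ℚ] QB) → Pt (E A B) QB) (σ * τ) - kf (Qc x.2) (σ * τ)) =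
          (kf (rt x.1) σ + ((fc x.2 : (QB ≃ₐ[ℚ] QB) → Pt (E A B) QB) σ - kf (Qc x.2) σ)) +
          (kf (rt x.1) τ + ((fc x.2 : (QB ≃ₐ[ℚ] QB) → Pt (E A B) QB) τ - kf (Qc x.2) τ))
        rw [e1, e2, add_add_add_comm]
      · exact Pool.Agent.TH841.SH.locTriv_add (a4 p hp) (b4 p hp)⟩
  have hΦ : Function.Injective Φ := by
    rintro ⟨t, c⟩ ⟨t', c'⟩ h
    have h1 : ∀ σ, kf (rt t) σ + ((fc c : (QB ≃ₐ[ℚ] QB) → Pt (E A B) QB) σ - kf (Qc c) σ) =
        kf (rt t') σ + ((fc c' : (QB ≃ₐ[ℚ] QB) → Pt (E A B) QB) σ - kf (Qc c') σ) := fun σ =>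
      congrFun (congrArg Subtype.val h) σ
    have hc : c = c' := by
      apply Subtype.ext
      rw [← hfc c, ← hfc c', QuotientAddGroup.eq_iff_sub_mem, AddSubgroup.mem_addSubgroupOf]
      refine ⟨rt t' - rt t + Qc c - Qc c', fun σ => ?_⟩
      show (fc c : (QB ≃ₐ[ℚ] QB) → Pt (E A B) QB) σ - (fc c' : (QB ≃ₐ[ℚ] QB) → Pt (E A B) QB) σ = _
      have h2 := h1 σ
      unfold kf at h2
      rw [map_sub, map_add, map_sub]
      have e : (fc c : (QB ≃ₐ[ℚ] QB) → Pt (E A B) QB) σ -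
          (fc c' : (QB ≃ₐ[ℚ] QB) → Pt (E A B) QB) σ =
          (act (E A B) σ.toAlgHom (rt t) - rt t +
            ((fc c : (QB ≃ₐ[ℚ] QB) → Pt (E A B) QB) σ -
              (act (E A B) σ.toAlgHom (Qc c) - Qc c))) -
          (act (E A B) σ.toAlgHom (rt t) - rt t) + (act (E A B) σ.toAlgHom (Qc c) - Qc c) -
          (fc c' : (QB ≃ₐ[ℚ] QB) → Pt (E A B) QB) σ := by abel
      rw [e, h2]
      abel
    subst hc
    have ht : t = t' := by
      have h3 : ∀ σ : QB ≃ₐ[ℚ] QB, act (E A B) σ.toAlgHom (rt t - rt t') = rt t - rt t' := by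
        intro σ
        have h4 : kf (rt t) σ = kf (rt t') σ := by
          have := h1 σ
          exact add_right_cancel this
        unfold kf at h4
        rw [map_sub]
        have e : act (E A B) σ.toAlgHom (rt t) - act (E A B) σ.toAlgHom (rt t') =
            (act (E A B) σ.toAlgHom (rt t) - rt t) + rt t -
              act (E A B) σ.toAlgHom (rt t') := by abel
        rw [e, h4]
        abel
      obtain ⟨S, hS⟩ := of_fixed _ h3
      rw [← QuotientAddGroup.out_eq' t, ← QuotientAddGroup.out_eq' t',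
        QuotientAddGroup.eq_iff_sub_mem]
      refine ⟨S, ?_⟩
      apply incl_inj
      rw [map_sub, ← hhf t.out, ← hhf t'.out]
      show incl (E A B) (2 • S) = _
      rw [two_nsmul, map_add, hS]
      show _ = rt t + rt t - (rt t' + rt t')
      abel
    rw [ht]
  have hfin' : Finite {h // IsSel A B h} := hfin.to_subtype
  have hF : Finite ((Pt (E A B) ℚ ⧸ D) × {c : Sha (E A B) // c + c = 0}) :=
    Finite.of_injective Φ hΦ
  have hF1 : Finite (Pt (E A B) ℚ ⧸ D) :=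
    Finite.of_injective (fun t => ((t, ⟨0, add_zero 0⟩) :
      (Pt (E A B) ℚ ⧸ D) × {c : Sha (E A B) // c + c = 0})) (fun t t' h => congrArg Prod.fst h)
  have hF2 : Finite {c : Sha (E A B) // c + c = 0} :=
    Finite.of_injective (fun c => (((0 : Pt (E A B) ℚ ⧸ D), c) :
      (Pt (E A B) ℚ ⧸ D) × {c : Sha (E A B) // c + c = 0})) (fun t t' h => congrArg Prod.snd h)
  refine ⟨hF2, ?_⟩
  have h5 := Nat.card_le_card_of_injective Φ hΦ
  rw [Nat.card_prod] at h5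
  have h6 : Nat.card {h // IsSel A B h} = {h | IsSel A B h}.ncard := rfl
  rw [h6] at h5
  refine le_trans (Nat.mul_le_mul_right _ ?_) h5
  -- the rank
  have hW : (E A B).baseChange ℚ = E A B := by
    show (E A B).map (algebraMap ℚ ℚ) = E A B
    exact WeierstrassCurve.map_id _
  have hfg : AddGroup.FG (Pt (E A B) ℚ) := by
    have h7 : AddGroup.FG (E A B).toAffine.Point := (Pool.Agent.W214.RK.half A B hA hB hAB).1
    show AddGroup.FG ((E A B).baseChange ℚ).toAffine.Point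
    rw [hW]
    exact h7
  have h8 : Module.finrank ℤ (E A B).toAffine.Point = Module.finrank ℤ (Pt (E A B) ℚ) := by
    show _ = Module.finrank ℤ ((E A B).baseChange ℚ).toAffine.Point
    rw [hW]
  rw [h8]
  have : Fintype (Pt (E A B) ℚ ⧸ D) := Fintype.ofFinite _
  rw [Nat.card_eq_fintype_card]
  refine Pool.Agent.W505.RK.rkb (Pt (E A B) ℚ) hfg (Fintype.card (Pt (E A B) ℚ ⧸ D))
    (Finset.univ.image (fun t : Pt (E A B) ℚ ⧸ D => t.out)) ?_ ?_
  · exact Finset.card_image_le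
  · intro g
    refine ⟨(QuotientAddGroup.mk g : Pt (E A B) ℚ ⧸ D).out,
      Finset.mem_image.2 ⟨_, Finset.mem_univ _, rfl⟩, ?_⟩
    have h9 : (QuotientAddGroup.mk g : Pt (E A B) ℚ ⧸ D) =
        QuotientAddGroup.mk ((QuotientAddGroup.mk g : Pt (E A B) ℚ ⧸ D).out) :=
      (QuotientAddGroup.out_eq' _).symm
    rw [QuotientAddGroup.eq_iff_sub_mem] at h9
    obtain ⟨q, hq⟩ := h9
    refine ⟨q, ?_⟩
    have h10 : 2 • q = g - (QuotientAddGroup.mk g : Pt (E A B) ℚ ⧸ D).out := hq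
    rw [← two_nsmul, h10]
    abel

end two

end Pool.Agent.U409.SH
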