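import Pool.Agent.U409.SH.Desc
import Pool.Agent.U409.SH.Sel2
import Pool.Agent.W262.RK.F4c
import Pool.Agent.W358.RK2.SVR
import Pool.Agent.W358.RK2.GR

/-!
# The average of `2 ^ rank * #Ш[2]` in one-parameter families

Adapted from `Pool.Agent.W262.RK.F4b` and `Pool.Agent.W262.RK.F4c`.
-/

set_option autoImplicit false

namespace Pool.Agent.U409.SH

open Finset Pool.Agent.W262.RK Pool.Agent.W262.SH
open Pool.Agent.W342.RK2 (xcl)

open scoped Classical in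
/-- `2 ^ rank * #Ш[2]` for the curve `y² = x (x - A) (x - B)` -/
noncomputable def qq (A B : ℤ) : ℕ :=
  2 ^ Module.finrank ℤ (E A B).toAffine.Point * Nat.card {c : Sha (E A B) // c + c = 0}

open scoped Classical in
theorem qq_le (m : ℕ) (L : ℕ → Bool → Bool → Bool → Bool → Prop) (A B : ℤ) (hA : A ≠ 0)
    (hB : B ≠ 0) (hAB : A ≠ B) (hodd : Odd m) (hm : Squarefree m)
    (hL : ∀ p, p.Prime → p ∣ m → XC (L p))
    (hloc : ∀ (p : ℕ) [Fact p.Prime], p ∣ m → ∀ e1 e2 : ℤ, Squarefree e1 → Squarefree e2 →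
      LocSol p A B e1 e2 → L p (dv p e1) (dv p e2) (sgn p e1) (sgn p e2)) :
    qq A B ≤
      4 ^ (((2 * A * B * (A - B)).natAbs.primeFactors.filter (fun q => ¬ q ∣ m)).card + 2) *
        NL m L := by
  obtain ⟨h1, h2⟩ := desc5 m L A B hA hB hAB hm hL hloc hodd
  obtain ⟨h3, h4⟩ := sh1 A B hA hB hAB h1
  obtain ⟨h5, h6⟩ := sh2 hA hB hAB h3
  exact h6.trans (h4.trans h2)

open scoped Classical in
/-- `Ш[2]` is finite -/
theorem fin2 (A B : ℤ) (hA : A ≠ 0) (hB : B ≠ 0) (hAB : A ≠ B) :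
    Finite {c : Sha (E A B) // c + c = 0} := by
  have hno : ∀ p : ℕ, p.Prime → ¬ p ∣ 1 := fun p hp h => hp.one_lt.ne' (Nat.dvd_one.1 h)
  obtain ⟨h1, _⟩ := desc5 1 (fun _ _ _ _ _ => True) A B hA hB hAB squarefree_one
    (fun p hp h => absurd h (hno p hp)) (fun p hp h => absurd h (hno p hp.out)) odd_one
  obtain ⟨h3, _⟩ := sh1 A B hA hB hAB h1
  exact (sh2 hA hB hAB h3).1

variable {J : Type} [Fintype J] [DecidableEq J]

/-- the rank is bounded by the local count -/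
lemma rank4' {cls : J → Fin 4} {a : Fin 3 → ℤ}
    {α β : J → ℤ} {z y X k : ℕ} (hB : Big4 a α β z) (ha : ∀ k, a k ≠ 0)
    (hκ0 : ∀ j k, kap4 cls a α β j k ≠ 0) (hκ : ∀ j k, (kap4 cls a α β j k).natAbs ≤ z) {t : ℤ}
    (hF : F4 cls a α β t 0 - F4 cls a α β t 1 = F4 cls a α β t 2)
    (h0 : ∀ j, ff α β t j ≠ 0) (hb : ∀ j, (ff α β t j).natAbs ≤ X ^ 2) (hX : 1 ≤ X) (hy : 1 ≤ y)
    (hk : X < (y + 1) ^ k) :
    qq (F4 cls a α β t 0) (F4 cls a α β t 1) ≤
      4 ^ (z + 2) * (16 ^ Fintype.card J) ^ k * 4 ^ (∑ j, (s2 α β z y t j).primeFactors.card) *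
        NL (∏ j, s1 α β z y t j) (LLs cls (kap4 cls a α β) (s1 α β z y t)
          (neg3 cls α β t (s1 α β z y t))) := by
  have hFne : ∀ k, F4 cls a α β t k ≠ 0 := fun k =>
    mul_ne_zero (ha k) (prod_ne_zero_iff.2 fun l _ => h0 l)
  have hz2 : 2 ≤ z := by have := hB.1.1; omega
  set s := s1 α β z y t with hs
  have hmem : s ∈ Tup J z y := s1_mem hB.1 t
  have hmd : ∏ j, s j ∣ PP z y := Tup_prod_dvd hmem
  have hPSof : ∀ p : ℕ, p.Prime → p ∣ ∏ j, s j → p ∈ PS z y := fun p hp h =>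
    (prime_dvd_PP hp).1 (h.trans hmd)
  have hnκ : ∀ p : ℕ, p.Prime → p ∣ ∏ j, s j → ∀ j k, ¬ (p : ℤ) ∣ kap4 cls a α β j k := by
    intro p hp h j k hd
    have h1 := (mem_PS.1 (hPSof p hp h)).1.1
    have h2 := Nat.le_of_dvd (Int.natAbs_pos.2 (hκ0 j k)) (Int.natCast_dvd.1 hd)
    have h3 := hκ j k
    omega
  have hodd : ∀ p : ℕ, p.Prime → p ∣ ∏ j, s j → p ≠ 2 := by
    intro p hp h
    have h1 := (mem_PS.1 (hPSof p hp h)).1.1
    omega
  have hd := qq_le (∏ j, s j) (LLs cls (kap4 cls a α β) s (neg3 cls α β t s))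
    (F4 cls a α β t 0) (F4 cls a α β t 1) (hFne 0) (hFne 1)
    (fun h => hFne 2 (by rw [← hF, h, sub_self]))
    (by
      rw [← Nat.not_even_iff_odd, even_iff_two_dvd]
      intro h
      exact hodd 2 Nat.prime_two h rfl)
    ((PP_squarefree z y).squarefree_of_dvd hmd)
    (fun p hp hpd => ⟨fun j hj => (xcl _ _ _ p hp (hodd p hp hpd) (hnκ p hp hpd j)).1,
      fun a1 b1 c1 d1 a2 b2 c2 d2 e1 e2 j hj =>
        (xcl _ _ _ p hp (hodd p hp hpd) (hnκ p hp hpd j)).2 a1 b1 c1 d1 a2 b2 c2 d2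
          (e1 j hj) (e2 j hj)⟩)
    (fun p hp hpd e1 e2 he1 he2 hsol j hj => by
      have hpp : p.Prime := Fact.out
      have hjs : p ∈ PS z y ∧ (p : ℤ) ∣ ff α β t j ∧ ¬ (p : ℤ) ^ 2 ∣ ff α β t j := by
        have h3 : p ∣ ∏ q ∈ (PS z y).filter (fun p : ℕ => (p : ℤ) ∣ ff α β t j ∧
          ¬ (p : ℤ) ^ 2 ∣ ff α β t j), q := hj
        exact mem_filter.1 ((prime_dvd_prodS (fun q hq => (mem_PS.1 (mem_filter.1 hq).1).2) hpp).1 h3)
      have hzp := (mem_PS.1 hjs.1).1.1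
      refine locl' (cls j) (kap4 cls a α β j) _ p _ _ (hodd p hpp hpd) (hnκ p hpp hpd j)
        (locH4 hB hpp hzp hF hjs.2.1 hjs.2.2 (fun h3 => ?_)) e1 e2 he1 he2 hsol
      rw [decide_eq_true_eq]
      unfold neg3 P3
      rw [mem_filter, Nat.mem_primeFactors]
      constructor
      · rintro ⟨_, l, hl3, hl, hl2⟩
        have : l = j := by
          by_contra hne
          have h4 := (mem_Tup'.1 hmem).2 l j hne
          exact hpp.one_lt.ne' (Nat.dvd_one.1 (h4 ▸ Nat.dvd_gcd hl hj))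
        rwa [this] at hl2
      · intro h5
        refine ⟨⟨hpp, dvd_trans hj (dvd_prod_of_mem s (mem_filter.2 ⟨mem_univ _, h3⟩)), ?_⟩,
          j, h3, hj, h5⟩
        exact prod_ne_zero_iff.2 fun l _ => (Tup_pos hmem l).ne')
  rw [hF] at hd
  refine hd.trans (Nat.mul_le_mul_right _ ?_)
  have hc := bad4 (cls := cls) (y := y) hB hX hy h0 hb hk
  rw [← hs] at hc
  calc 4 ^ (((2 * F4 cls a α β t 0 * F4 cls a α β t 1 *
        F4 cls a α β t 2).natAbs.primeFactors.filter (fun q => ¬ q ∣ ∏ j, s j)).card + 2)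
      ≤ 4 ^ ((z + 2) + (Fintype.card J * (2 * k)) + ∑ j, (s2 α β z y t j).primeFactors.card) :=
        Nat.pow_le_pow_right (by norm_num) (by omega)
    _ = _ := by
        rw [pow_add, pow_add]
        congr 2
        rw [← pow_mul, show (16 : ℕ) = 4 ^ 2 by norm_num, ← pow_mul]
        congr 1
        ring

/-- the average of `2 ^ rank * #Ш[2]` for general classes -/
theorem avg4' (hexp : EXP4) (hcomb : COMB4)
    (hsubb : SUBB) (hcnt : CNT4) (hnt : NT) (cls : J → Fin 4) (n : ℕ)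
    (hn : ∀ k, k ≠ 3 → (univ.filter (fun j => cls j = k)).card = n)
    (a : Fin 3 → ℤ) (α β : J → ℤ) (ha : ∀ k, a k ≠ 0) (hα : ∀ j, α j ≠ 0)
    (hR : ∀ j l, j ≠ l → Res α β j l ≠ 0)
    (hF : ∀ t : ℤ, F4 cls a α β t 0 - F4 cls a α β t 1 = F4 cls a α β t 2) :
    ∃ C : ℝ, ∀ X : ℕ, ∑ t ∈ (Icc 1 X).filter (fun t : ℕ => ∀ j, ff α β t j ≠ 0),
      (qq (F4 cls a α β t 0) (F4 cls a α β t 1) : ℝ) ≤ C * X := by
  classical
  set κ := kap4 cls a α β with hκdef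
  have hκ0 : ∀ j k, κ j k ≠ 0 := kap4_ne cls a α β hα ha hR
  set N := Fintype.card J with hN
  obtain ⟨z0, hz0⟩ := ma4 hexp hcomb cls κ n N hn hκ0
  set z : ℕ := z0 + (2 * N + 2) + ∑ k, (a k).natAbs + ∑ j, (α j).natAbs +
    ∑ j, ∑ l, (Res α β j l).natAbs + ∑ j, ∑ k, (κ j k).natAbs with hz
  have hB : Big4 a α β z := by
    refine ⟨⟨by omega, fun p hp hzp => ⟨fun j h => ?_, fun j l hjl h => ?_⟩⟩,
      fun p hp hzp k h => ?_⟩
    · have h1 := Nat.le_of_dvd (Int.natAbs_pos.2 (hα j)) (Int.natCast_dvd.1 h)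
      have h2 := single_le_sum (f := fun j => (α j).natAbs) (fun _ _ => Nat.zero_le _) (mem_univ j)
      omega
    · have h1 := Nat.le_of_dvd (Int.natAbs_pos.2 (hR j l hjl)) (Int.natCast_dvd.1 h)
      have h2 := single_le_sum (f := fun l => (Res α β j l).natAbs) (fun _ _ => Nat.zero_le _)
        (mem_univ l)
      have h3 := single_le_sum (f := fun j => ∑ l, (Res α β j l).natAbs) (fun _ _ => Nat.zero_le _)
        (mem_univ j)
      omega
    · have h1 := Nat.le_of_dvd (Int.natAbs_pos.2 (ha k)) (Int.natCast_dvd.1 h)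
      have h2 := single_le_sum (f := fun k => (a k).natAbs) (fun _ _ => Nat.zero_le _) (mem_univ k)
      omega
  have hκz : ∀ j k, (κ j k).natAbs ≤ z := by
    intro j k
    have h1 := single_le_sum (f := fun k => (κ j k).natAbs) (fun _ _ => Nat.zero_le _) (mem_univ k)
    have h2 := single_le_sum (f := fun j => ∑ k, (κ j k).natAbs) (fun _ _ => Nat.zero_le _)
      (mem_univ j)
    omega
  have hz2 : 2 ≤ z := by omega
  obtain ⟨C', hC'⟩ := hz0 z (by omega)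
  obtain ⟨C, K, y0, hC0, hK1, hcn⟩ := hcnt J α β cls z hB.1
  set y1 : ℕ := y0 + ∑ j, ((α j).natAbs + (β j).natAbs) + 1 with hy1
  refine hnt J α β z (NB cls κ) (fun t => (qq (F4 cls a α β t 0) (F4 cls a α β t 1) : ℝ)) (C * 4 ^ (z + 2)) C'
        (16 ^ N) K y1 hB.1 (fun s => ?_) (fun t => by positivity) (by positivity)
        (one_le_pow₀ (by norm_num)) hK1 (fun y hy s e hse => hsubb J cls κ z y hz2 hκ0 hκz s e hse)
        hC' ?_
  · unfold NB
    exact mul_nonneg (by positivity) (sum_nonneg fun _ _ => Nat.cast_nonneg _)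
  intro X y Y k hy0 hzy hyK hk s hs v hv u hu h8
  have hy00 : y0 ≤ y := by omega
  have hyX : y ≤ X := le_trans (Nat.le_self_pow (by omega) y) hyK
  have hX1 : 1 ≤ X := by omega
  set S := (Icc 1 X).filter (fun t : ℕ => (∀ j, ff α β t j ≠ 0) ∧ s1 α β z y t = s ∧
    s2 α β z y t = v ∧ ∀ j, (u j : ℤ) ∣ ff α β t j) with hS
  set g : Finset ℕ → ℝ := fun E => (NL (∏ j, s j) (LLs cls κ s E) : ℝ) with hg
  have hg0 : ∀ E, 0 ≤ g E := fun E => Nat.cast_nonneg _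
  have h1 : ∀ t ∈ S, (qq (F4 cls a α β t 0) (F4 cls a α β t 1) : ℝ) ≤
      4 ^ (z + 2) * (16 ^ N) ^ k * 4 ^ (∑ j, (v j).primeFactors.card) * g (neg3 cls α β t s) := by
    intro t ht
    rw [hS, mem_filter] at ht
    obtain ⟨ht1, ht0, hts, htv, _⟩ := ht
    have hr := rank4' (X := X) (y := y) (k := k) hB ha hκ0 hκz (hF t) ht0 (fun j => by
        unfold ff
        have h3 := Int.natAbs_add_le (α j * (t : ℤ)) (β j)
        rw [Int.natAbs_mul, Int.natAbs_natCast] at h3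
        have h4 := single_le_sum (f := fun j => (α j).natAbs + (β j).natAbs)
          (fun _ _ => Nat.zero_le _) (mem_univ j)
        have h5 := (mem_Icc.1 ht1).2
        have h6 : (α j).natAbs + (β j).natAbs ≤ X := by omega
        nlinarith [Nat.zero_le (α j).natAbs, Nat.zero_le (β j).natAbs,
          Nat.mul_le_mul_left (α j).natAbs h5, Nat.mul_le_mul_right X h6,
          Nat.le_mul_of_pos_right (β j).natAbs (show 0 < X by omega)]) hX1 (by omega) hk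
    rw [hts, htv] at hr
    show _ ≤ _ * (NL (∏ j, s j) (LLs cls κ s (neg3 cls α β t s)) : ℝ)
    exact_mod_cast hr
  have hneg : ∀ t ∈ S, neg3 cls α β t s ∈ (P3 cls s).powerset := by
    intro t _
    rw [mem_powerset]
    exact filter_subset _ _
  have h2 : ∑ t ∈ S, g (neg3 cls α β t s) =
      ∑ E ∈ (P3 cls s).powerset, ((S.filter (fun t : ℕ => neg3 cls α β t s = E)).card : ℝ) * g E := by
    rw [← sum_fiberwise_of_maps_to hneg]
    refine sum_congr rfl fun E _ => ?_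
    rw [← nsmul_eq_mul, ← sum_const]
    refine sum_congr rfl fun t ht => ?_
    rw [(mem_filter.1 ht).2]
  set Q : ℝ := C * X * (1 / 2) ^ (P3 cls s).card * (∏ j, gw 1 N (s j)) *
        (∏ j, gw 1 N (v j) / v j) * (∏ j, 1 / (u j : ℝ)) / (Real.log y) ^ N with hQ
  have h3 : ∀ E ∈ (P3 cls s).powerset,
      ((S.filter (fun t : ℕ => neg3 cls α β t s = E)).card : ℝ) * g E ≤ Q * g E := by
    intro E _
    refine mul_le_mul_of_nonneg_right ?_ (hg0 E)
    refine le_trans ?_ (hcn X y Y hy00 hzy hyK s hs v hv u hu h8 E)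
    have h4 : S.filter (fun t : ℕ => neg3 cls α β t s = E) ⊆
        (Icc 1 X).filter (fun t : ℕ => s1 α β z y t = s ∧ s2 α β z y t = v ∧
          (∀ j, (u j : ℤ) ∣ ff α β t j) ∧ neg3 cls α β t s = E) := by
      intro t ht
      rw [mem_filter, hS, mem_filter] at ht
      rw [mem_filter]
      exact ⟨ht.1.1, ht.1.2.2.1, ht.1.2.2.2.1, ht.1.2.2.2.2, ht.2⟩
    exact_mod_cast card_le_card h4
  calc ∑ t ∈ S, (qq (F4 cls a α β t 0) (F4 cls a α β t 1) : ℝ)
      ≤ ∑ t ∈ S, 4 ^ (z + 2) * (16 ^ N) ^ k * 4 ^ (∑ j, (v j).primeFactors.card) *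
          g (neg3 cls α β t s) := sum_le_sum h1
    _ = 4 ^ (z + 2) * (16 ^ N) ^ k * 4 ^ (∑ j, (v j).primeFactors.card) *
          ∑ E ∈ (P3 cls s).powerset,
            ((S.filter (fun t : ℕ => neg3 cls α β t s = E)).card : ℝ) * g E := by
        rw [← mul_sum, h2]
    _ ≤ 4 ^ (z + 2) * (16 ^ N) ^ k * 4 ^ (∑ j, (v j).primeFactors.card) *
          ∑ E ∈ (P3 cls s).powerset, Q * g E :=
        mul_le_mul_of_nonneg_left (sum_le_sum h3) (by positivity)
    _ = _ := by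
        have e1 : NB cls κ s = (1 / 2) ^ (P3 cls s).card * ∑ E ∈ (P3 cls s).powerset, g E := rfl
        have e2 : (∏ j, (4 : ℝ) ^ (v j).primeFactors.card * (gw 1 N (v j) / v j)) =
            4 ^ (∑ j, (v j).primeFactors.card) * ∏ j, (gw 1 N (v j) / v j) := by
          rw [prod_mul_distrib, prod_pow_eq_pow_sum]
        rw [← mul_sum, e1, e2, hQ]
        ring


/-- the average of `2 ^ rank * #Ш[2]` for general classes -/
theorem avg4_all' {J : Type} [Fintype J] [DecidableEq J] (cls : J → Fin 4)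
    (n : ℕ) (hn : ∀ k, k ≠ 3 → (univ.filter (fun j => cls j = k)).card = n)
    (a : Fin 3 → ℤ) (α β : J → ℤ) (ha : ∀ k, a k ≠ 0) (hα : ∀ j, α j ≠ 0)
    (hR : ∀ j l, j ≠ l → Res α β j l ≠ 0)
    (hF : ∀ t : ℤ, F4 cls a α β t 0 - F4 cls a α β t 1 = F4 cls a α β t 2) :
    ∃ C : ℝ, ∀ X : ℕ, ∑ t ∈ (Icc 1 X).filter (fun t : ℕ => ∀ j, ff α β t j ≠ 0),
      (qq (F4 cls a α β t 0) (F4 cls a α β t 1) : ℝ) ≤ C * X :=
  avg4'
    Pool.Agent.W762.RK2.exp4 Pool.Agent.W125.RK2.comb4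
    (Pool.Agent.W125.RK2.subb_of Pool.Agent.W125.RK2.sub4 Pool.Agent.W342.RK2.xcl)
    (Pool.Agent.W372.RK2.cnt4_of Pool.Agent.W358.RK2.svr)
    (nt_of Pool.Agent.W405.RK2.rs Pool.Agent.W591.RK2.rv Pool.Agent.W591.RK2.ru Pool.Agent.W358.RK2.gr)
    cls n hn a α β ha hα hR hF

/-- the same with the zeros of the forms -/
theorem avg4_full' {J : Type} [Fintype J] [DecidableEq J] (cls : J → Fin 4)
    (n : ℕ) (hn : ∀ k, k ≠ 3 → (univ.filter (fun j => cls j = k)).card = n)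
    (a : Fin 3 → ℤ) (α β : J → ℤ) (ha : ∀ k, a k ≠ 0) (hα : ∀ j, α j ≠ 0)
    (hR : ∀ j l, j ≠ l → Res α β j l ≠ 0)
    (hF : ∀ t : ℤ, F4 cls a α β t 0 - F4 cls a α β t 1 = F4 cls a α β t 2) :
    ∃ C : ℝ, 0 ≤ C ∧ ∀ X : ℕ, ∑ t ∈ Icc 1 X,
        (qq (F4 cls a α β (t : ℤ) 0) (F4 cls a α β (t : ℤ) 1) : ℝ) ≤ C * X := by
  classical
  obtain ⟨C, hC⟩ := avg4_all' cls n hn a α β ha hα hR hF
  set R : ℕ → ℝ := fun t =>
    (qq (F4 cls a α β (t : ℤ) 0) (F4 cls a α β (t : ℤ) 1) : ℝ) with hRdef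
  have hR0 : ∀ t, 0 ≤ R t := fun t => by positivity
  -- the zeros
  set T0 : ℕ := ∑ j, (β j).natAbs with hT0
  have hzero : ∀ t : ℕ, (¬ ∀ j, ff α β t j ≠ 0) → t ≤ T0 := by
    intro t ht
    push Not at ht
    obtain ⟨j, hj⟩ := ht
    unfold ff at hj
    have h1 : (β j).natAbs = (α j).natAbs * t := by
      have h2 : β j = -(α j * t) := by linarith
      rw [h2, Int.natAbs_neg, Int.natAbs_mul, Int.natAbs_natCast]
    have h3 := single_le_sum (f := fun j => (β j).natAbs) (fun _ _ => Nat.zero_le _) (mem_univ j)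
    have h4 : t ≤ (α j).natAbs * t := Nat.le_mul_of_pos_left _ (Int.natAbs_pos.2 (hα j))
    omega
  set D : ℝ := ∑ t ∈ Icc 1 T0, R t with hD
  have hD0 : 0 ≤ D := sum_nonneg fun t _ => hR0 t
  refine ⟨max C 0 + D, add_nonneg (le_max_right _ _) hD0, fun X => ?_⟩
  rcases Nat.eq_zero_or_pos X with hX | hX
  · subst hX; simp
  have hXr : (1 : ℝ) ≤ X := by exact_mod_cast hX
  have h1 : ∑ t ∈ Icc 1 X, R t = ∑ t ∈ (Icc 1 X).filter (fun t : ℕ => ∀ j, ff α β t j ≠ 0), R t +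
      ∑ t ∈ (Icc 1 X).filter (fun t : ℕ => ¬ ∀ j, ff α β t j ≠ 0), R t :=
    (sum_filter_add_sum_filter_not _ _ _).symm
  have h2 : ∑ t ∈ (Icc 1 X).filter (fun t : ℕ => ¬ ∀ j, ff α β t j ≠ 0), R t ≤ D := by
    refine sum_le_sum_of_subset_of_nonneg ?_ (fun t _ _ => hR0 t)
    intro t ht
    rw [mem_filter, mem_Icc] at ht
    rw [mem_Icc]
    exact ⟨ht.1.1, hzero t ht.2⟩
  have h3 := hC X
  have h4 : C * X ≤ max C 0 * X := mul_le_mul_of_nonneg_right (le_max_left _ _) (by positivity)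
  have h5 : D ≤ D * X := le_mul_of_one_le_right hD0 hXr
  show ∑ t ∈ Icc 1 X, R t ≤ (max C 0 + D) * X
  rw [h1, add_mul]
  exact add_le_add (h3.trans h4) (h2.trans h5)

end Pool.Agent.U409.SH
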