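import Pool.Agent.U409.SH.Avg
import Pool.Agent.Y700.ShaVC

/-!
# `2 ^ rank * #Ш[2]` does not depend on the Weierstrass equation
-/

set_option autoImplicit false

namespace Pool.Agent.U409.SH

open WeierstrassCurve

open scoped Classical

open Pool.Agent.W262.SH (QB Pt act IsCoc IsCob LocTriv shaCoc cob Sha E)
open Pool.Agent.Y700 (VR eL eL_act coc_VC)

/-- `2 ^ rank * #Ш[2]` -/
noncomputable def Qn (W : WeierstrassCurve ℚ) : ℕ :=
  2 ^ Module.finrank ℤ W.toAffine.Point * Nat.card {c : Sha W // c + c = 0}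

/-- `Ш[2]` is finite -/
def Fin2 (W : WeierstrassCurve ℚ) : Prop := Finite {c : Sha W // c + c = 0}

theorem qq_eq (A B : ℤ) : qq A B = Qn (E A B) := rfl

variable {W W' : WeierstrassCurve ℚ} {u r s t : ℚ}

theorem eL_symm_act (h : VR W W' u r s t) (hD : W'.Δ ≠ 0) {F L : Type} [Field F] [Algebra ℚ F]
    [Field L] [Algebra ℚ L] (φ : F →ₐ[ℚ] L) (P : Pt W F) :
    (eL h hD L).symm (act W φ P) = act W' φ ((eL h hD F).symm P) := by
  apply (eL h hD L).injective
  rw [eL_act, AddEquiv.apply_symm_apply, AddEquiv.apply_symm_apply]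

theorem coc_VC' (h : VR W W' u r s t) (hD : W'.Δ ≠ 0) {f : (QB ≃ₐ[ℚ] QB) → Pt W QB}
    (hf : f ∈ shaCoc W) : (fun σ => (eL h hD QB).symm (f σ)) ∈ shaCoc W' := by
  obtain ⟨⟨h1, h2⟩, h3, h4⟩ := hf
  have hl : ∀ (K : Type) [Field K] [Algebra ℚ K], LocTriv W K f →
      LocTriv W' K (fun σ => (eL h hD QB).symm (f σ)) := by
    intro K _ _ hK ι
    obtain ⟨P, hP⟩ := hK ι
    refine ⟨(eL h hD _).symm P, fun τ σ hτ => ?_⟩
    rw [← eL_symm_act, hP τ σ hτ, map_sub, eL_symm_act]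
  refine ⟨⟨h1.comp _, fun σ τ => ?_⟩, fun p _ => hl _ (h3 p), hl _ h4⟩
  simp only
  rw [h2, map_add, eL_symm_act]

/-- the isomorphism of the groups of cocycles -/
noncomputable def cocEquiv (h : VR W W' u r s t) (hD : W'.Δ ≠ 0) : shaCoc W' ≃+ shaCoc W where
  toFun f := ⟨_, coc_VC h hD f.2⟩
  invFun f := ⟨_, coc_VC' h hD f.2⟩
  left_inv f := by
    apply Subtype.ext
    funext σ
    exact AddEquiv.symm_apply_apply _ _
  right_inv f := by
    apply Subtype.ext
    funext σ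
    exact AddEquiv.apply_symm_apply _ _
  map_add' f g := by
    apply Subtype.ext
    funext σ
    exact map_add (eL h hD QB) _ _

theorem cob_map (h : VR W W' u r s t) (hD : W'.Δ ≠ 0) :
    ((cob W').addSubgroupOf (shaCoc W')).map (cocEquiv h hD : shaCoc W' →+ shaCoc W) =
      (cob W).addSubgroupOf (shaCoc W) := by
  ext f
  rw [AddSubgroup.mem_map, AddSubgroup.mem_addSubgroupOf]
  constructor
  · rintro ⟨g, hg, rfl⟩
    rw [AddSubgroup.mem_addSubgroupOf] at hg
    obtain ⟨P, hP⟩ := hg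
    refine ⟨eL h hD _ P, fun σ => ?_⟩
    show eL h hD QB ((g : (QB ≃ₐ[ℚ] QB) → Pt W' QB) σ) = _
    rw [hP σ, map_sub, eL_act]
  · rintro ⟨P, hP⟩
    refine ⟨(cocEquiv h hD).symm f, ?_, (cocEquiv h hD).apply_symm_apply f⟩
    rw [AddSubgroup.mem_addSubgroupOf]
    refine ⟨(eL h hD _).symm P, fun σ => ?_⟩
    show (eL h hD QB).symm ((f : (QB ≃ₐ[ℚ] QB) → Pt W QB) σ) = _
    rw [hP σ, map_sub, eL_symm_act]

/-- the isomorphism of the Tate-Shafarevich groups -/
noncomputable def shaEquiv (h : VR W W' u r s t) (hD : W'.Δ ≠ 0) : Sha W' ≃+ Sha W :=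
  QuotientAddGroup.congr _ _ (cocEquiv h hD) (cob_map h hD)

/-- the bijection of the elements of order two -/
noncomputable def subEquiv (h : VR W W' u r s t) (hD : W'.Δ ≠ 0) :
    {c : Sha W' // c + c = 0} ≃ {c : Sha W // c + c = 0} :=
  (shaEquiv h hD).toEquiv.subtypeEquiv fun c => by
    constructor
    · intro hc
      have := congrArg (shaEquiv h hD) hc
      rw [map_add, map_zero] at this
      exact this
    · intro hc
      apply (shaEquiv h hD).injective
      rw [map_add, map_zero]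
      exact hc

theorem Qn_VR (h : VR W W' u r s t) (hD : W'.Δ ≠ 0) : Qn W' = Qn W := by
  unfold Qn
  have h1 := ((h.equiv hD).toIntLinearEquiv).finrank_eq
  have h2 := Nat.card_congr (subEquiv h hD)
  rw [h1, h2]

theorem fin_VR (h : VR W W' u r s t) (hD : W'.Δ ≠ 0) (hf : Fin2 W') : Fin2 W := by
  unfold Fin2 at hf ⊢
  exact Finite.of_equiv _ (subEquiv h hD)

end Pool.Agent.U409.SH
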