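import Pool.Agent.U409.SH.Inv

/-!
# The definitions of the hand-ins (`Pool/Agent/TH841/SH/ShaDef.lean`)
-/

set_option autoImplicit false

namespace Pool.Agent.U409.SH

open scoped Classical

open Pool.Agent.TH841.SH.D (ShaTor rk)

/-- the elements of order two -/
noncomputable def torEquiv (W : WeierstrassCurve ℚ) :
    ShaTor W 2 ≃ {c : Pool.Agent.W262.SH.Sha W // c + c = 0} :=
  (Pool.Agent.TH841.SH.D.eSha W).toEquiv.subtypeEquiv fun c => by
    rw [two_nsmul]
    constructor
    · intro hc
      have := congrArg (Pool.Agent.TH841.SH.D.eSha W) hc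
      rw [map_add, map_zero] at this
      exact this
    · intro hc
      apply (Pool.Agent.TH841.SH.D.eSha W).injective
      rw [map_add, map_zero]
      exact hc

/-- `2 ^ rank * #Ш[2]` for the elliptic curve `W` over `ℚ` -/
noncomputable def Mn (W : WeierstrassCurve ℚ) : ℕ := 2 ^ rk W * Nat.card (ShaTor W 2)

theorem Mn_eq (W : WeierstrassCurve ℚ) : Mn W = Qn W := by
  unfold Mn Qn rk
  rw [Nat.card_congr (torEquiv W)]

theorem fin_tor {W : WeierstrassCurve ℚ} (h : Fin2 W) : Finite (ShaTor W 2) := by
  unfold Fin2 at h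
  exact Finite.of_equiv _ (torEquiv W).symm

end Pool.Agent.U409.SH
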