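import Pool.Agent.U409.SH.Fam
import Pool.Agent.W307.RT.Tors

/-!
# The average of `2 ^ rank * #Ш[2]` over the curves with a subgroup `Z/2 x Z/4` or `Z/2 x Z/6`
-/

set_option autoImplicit false

namespace Pool.Agent.U409.SH

open Finset Pool.Agent.W262.RK Pool.Agent.W307.RT
open Pool.Agent.W262.SH (E Sha)
open Pool.Agent.Y700 (VR)

lemma delta_E {M N : ℤ} (hM : M ≠ 0) (hN : N ≠ 0) (hMN : M ≠ N) : (E (-M) (-N)).Δ ≠ 0 := by
  have hM' : (M : ℚ) ≠ 0 := by exact_mod_cast hM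
  have hN' : (N : ℚ) ≠ 0 := by exact_mod_cast hN
  have hMN' : (M : ℚ) - N ≠ 0 := sub_ne_zero.2 (by exact_mod_cast hMN)
  have e : (E (-M) (-N)).Δ = 16 * ((M : ℚ) * N * (M - N)) ^ 2 := by
    unfold E
    simp only [WeierstrassCurve.Δ, WeierstrassCurve.b₂, WeierstrassCurve.b₄,
      WeierstrassCurve.b₆, WeierstrassCurve.b₈]
    push_cast
    ring
  rw [e]
  exact mul_ne_zero (by norm_num) (pow_ne_zero 2 (mul_ne_zero (mul_ne_zero hM' hN') hMN'))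

/-- the change of the equation -/
lemma Qn_shift {A B M N : ℤ} {s r : ℚ} (hs : s ≠ 0) (hM : M ≠ 0) (hN : N ≠ 0) (hMN : M ≠ N)
    (h2 : s ^ 2 * ((M : ℚ) + N) = 3 * r) (h4 : s ^ 4 * ((M : ℚ) * N) = A + 3 * r ^ 2)
    (h6 : (B : ℚ) + r * A + r ^ 3 = 0) :
    Fin2 (Sh A B) ∧ Qn (Sh A B) = Qn (E (-M) (-N)) := by
  have hv : VR (Sh A B) (E (-M) (-N)) s r 0 0 := by
    unfold Sh E
    refine ⟨hs, ?_, ?_, ?_, ?_, ?_⟩
    · simp
    · push_cast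
      linear_combination h2
    · simp
    · push_cast
      linear_combination h4
    · push_cast
      linear_combination -h6
  exact ⟨fin_VR hv (delta_E hM hN hMN) (fin2 _ _ (neg_ne_zero.2 hM) (neg_ne_zero.2 hN)
    (fun h => hMN (neg_injective h))), (Qn_VR hv (delta_E hM hN hMN)).symm⟩

theorem par6' : PAR' 6 24 M6 N6 := by
  refine ⟨147456 ^ 3, Pool.Agent.W135.RT.FF, fun H => ⟨?_, ?_⟩⟩
  · intro c hc c' hc' hcc
    obtain ⟨s, hR⟩ := Pool.Agent.W135.RT.FF_spec hc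
    obtain ⟨s', hR'⟩ := Pool.Agent.W135.RT.FF_spec hc'
    rw [← hcc] at hR'
    have hc1 := Pool.Agent.W135.RT.memCv (Finset.mem_coe.mp hc)
    have hc1' := Pool.Agent.W135.RT.memCv (Finset.mem_coe.mp hc')
    obtain ⟨h1, h2⟩ := Pool.Agent.W135.RT.inj hR hR' hc1.2.2.2.1 hc1'.2.2.2.1
    exact Prod.ext h1 h2
  · intro c hc
    obtain ⟨s, hR⟩ := Pool.Agent.W135.RT.FF_spec hc
    have hc1 := Pool.Agent.W135.RT.memCv hc
    refine ⟨hR.cop, hR.m0, hR.n0, hR.mn, Pool.Agent.W135.RT.bound2 hR H hc1.2.1 _ (Or.inl rfl),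
      Pool.Agent.W135.RT.bound2 hR H hc1.2.1 _ (Or.inr rfl), ?_⟩
    set u := (Pool.Agent.W135.RT.FF c).1
    set v := (Pool.Agent.W135.RT.FF c).2
    refine Qn_shift (s := s) (r := s ^ 2 * ((M6 u v : ℚ) + N6 u v) / 3) hR.s0 hR.m0 hR.n0 hR.mn
      (by ring) ?_ ?_
    · linear_combination -(1 / 3) * hR.ea
    · linear_combination (1 / 27) * hR.eb + (1 / 9) * s ^ 2 * ((M6 u v : ℚ) + N6 u v) * hR.ea

theorem par4' : PAR' 4 12 M4 N4 := by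
  refine ⟨54, Pool.Agent.W605.RT.FF, fun H => ⟨?_, ?_⟩⟩
  · intro c hc c' hc' hcc
    rw [Finset.mem_coe] at hc hc'
    simp only [Cv, Finset.mem_filter] at hc hc'
    obtain ⟨-, hD, -, -, hmin, hT⟩ := hc
    obtain ⟨-, hD', -, -, hmin', hT'⟩ := hc'
    have r := Pool.Agent.W605.RT.FF_rel (Pool.Agent.W605.RT.core hD hT)
    have r' := Pool.Agent.W605.RT.FF_rel (Pool.Agent.W605.RT.core hD' hT')
    change Pool.Agent.W605.RT.Rel c (Pool.Agent.W605.RT.FF c) at r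
    change Pool.Agent.W605.RT.Rel c' (Pool.Agent.W605.RT.FF c') at r'
    rw [← hcc] at r'
    exact Pool.Agent.W605.RT.rel_unique r r' hmin hmin'
  · intro c hc
    simp only [Cv, Finset.mem_filter] at hc
    obtain ⟨-, hD, hH, -, hmin, hT⟩ := hc
    have r := Pool.Agent.W605.RT.FF_rel (Pool.Agent.W605.RT.core hD hT)
    change Pool.Agent.W605.RT.Rel c (Pool.Agent.W605.RT.FF c) at r
    obtain ⟨hb1, hb2⟩ := Pool.Agent.W605.RT.rel_bound (A := c.1) (B := c.2) r hH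
    set ab := Pool.Agent.W605.RT.FF c with hab
    clear_value ab
    obtain ⟨A, B⟩ := c
    obtain ⟨a, b⟩ := ab
    obtain ⟨g, e, hg, hco, ha0, hb0, hne, he, hA, hB⟩ := r
    change a ≠ 0 at ha0
    change b ≠ 0 at hb0
    change a ^ 2 ≠ b ^ 2 at hne
    change 3 * e = g ^ 2 * (a ^ 2 + b ^ 2) at he
    change 3 * A = -(g ^ 4 * (a ^ 4 - a ^ 2 * b ^ 2 + b ^ 4)) at hA
    change 27 * B = g ^ 6 * ((a ^ 2 + b ^ 2) * (2 * a ^ 2 - b ^ 2) * (a ^ 2 - 2 * b ^ 2)) at hB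
    refine ⟨hco, ?_, ?_, ?_, hb1, hb2, ?_⟩
    · exact pow_ne_zero 2 ha0
    · exact pow_ne_zero 2 hb0
    · exact hne
    · have hgq : (g : ℚ) ≠ 0 := by exact_mod_cast hg.ne'
      have heq : (3 : ℚ) * e = (g : ℚ) ^ 2 * ((a : ℚ) ^ 2 + (b : ℚ) ^ 2) := by exact_mod_cast he
      have hAq : (3 : ℚ) * A =
          -((g : ℚ) ^ 4 * ((a : ℚ) ^ 4 - (a : ℚ) ^ 2 * (b : ℚ) ^ 2 + (b : ℚ) ^ 4)) := by
        exact_mod_cast hA
      have hBq : (27 : ℚ) * B = (g : ℚ) ^ 6 * (((a : ℚ) ^ 2 + (b : ℚ) ^ 2) *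
          (2 * (a : ℚ) ^ 2 - (b : ℚ) ^ 2) * ((a : ℚ) ^ 2 - 2 * (b : ℚ) ^ 2)) := by
        exact_mod_cast hB
      have he1 : (e : ℚ) = (g : ℚ) ^ 2 * ((a : ℚ) ^ 2 + (b : ℚ) ^ 2) / 3 := by linarith
      have hA1 : (A : ℚ) =
          -((g : ℚ) ^ 4 * ((a : ℚ) ^ 4 - (a : ℚ) ^ 2 * (b : ℚ) ^ 2 + (b : ℚ) ^ 4)) / 3 := by
        linarith
      have hB1 : (B : ℚ) = (g : ℚ) ^ 6 * (((a : ℚ) ^ 2 + (b : ℚ) ^ 2) *
          (2 * (a : ℚ) ^ 2 - (b : ℚ) ^ 2) * ((a : ℚ) ^ 2 - 2 * (b : ℚ) ^ 2)) / 27 := by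
        linarith
      refine Qn_shift (s := g) (r := e) hgq (pow_ne_zero 2 ha0) (pow_ne_zero 2 hb0) hne ?_ ?_ ?_
      · unfold M4 N4
        push_cast
        linarith
      · unfold M4 N4
        push_cast
        rw [he1, hA1]
        ring
      · rw [he1, hA1, hB1]
        ring

theorem box6' : ∃ C : ℝ, 0 ≤ C ∧ ∀ T : ℕ, 1 ≤ T → ∑ t ∈ (Box T).filter (fun t : ℤ × ℤ =>
      IsCoprime t.1 t.2 ∧ M6 t.1 t.2 ≠ 0 ∧ N6 t.1 t.2 ≠ 0 ∧ M6 t.1 t.2 ≠ N6 t.1 t.2),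
      (qq (-(M6 t.1 t.2)) (-(N6 t.1 t.2)) : ℝ) ≤ C * (T : ℝ) ^ 2 := by
  refine fam' avg2' c6 (fun _ => -1) m6 α6 β6 (by decide) (by decide) (by decide) (by decide)
    (by decide) (by decide) (fun j => Or.inl (by revert j; decide)) (fun u v => ?_) ?_ 3 M6 N6
    (fun u v => by rw [FM60]; norm_num) (fun u v => by rw [FM61]; norm_num)
  · rw [FM60, FM61, FM62]
    ring
  · exact ma4 Pool.Agent.W762.RK2.exp4 Pool.Agent.W125.RK2.comb4 c6 _ 2 _ (by decide)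
      (fun j _ => by revert j; decide)

theorem box4' : ∃ C : ℝ, 0 ≤ C ∧ ∀ T : ℕ, 1 ≤ T → ∑ t ∈ (Box T).filter (fun t : ℤ × ℤ =>
      IsCoprime t.1 t.2 ∧ M4 t.1 t.2 ≠ 0 ∧ N4 t.1 t.2 ≠ 0 ∧ M4 t.1 t.2 ≠ N4 t.1 t.2),
      (qq (-(M4 t.1 t.2)) (-(N4 t.1 t.2)) : ℝ) ≤ C * (T : ℝ) ^ 2 := by
  refine fam' avg2' c4 (fun _ => -1) m4 α4 β4 (by decide) (by decide) (by decide) (by decide)
    (by decide) (by decide) (fun j => ?_) (fun u v => ?_) nb4 2 M4 N4 FM40 FM41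
  · revert j
    decide
  · rw [FM40, FM41, FM42]
    ring

theorem fin_of_par {m k : ℕ} {M N : ℤ → ℤ → ℤ} (hP : PAR' m k M N) (H : ℕ) {c : ℤ × ℤ}
    (hc : c ∈ Cv m H) : Fin2 (Sh c.1 c.2) := by
  obtain ⟨_, F, hF⟩ := hP
  exact ((hF H).2 c hc).2.2.2.2.2.2.1

/-- **Z/2 x Z/6** -/
theorem main6' : ∃ C : ℝ, ∀ H : ℕ, ∑ c ∈ Cv 6 H, (Qn (Sh c.1 c.2) : ℝ) ≤ C * (Cv 6 H).card :=
  final_of' (by norm_num) par6' Pool.Agent.W376.RTL.low6 box6'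

/-- **Z/2 x Z/4** -/
theorem main4' : ∃ C : ℝ, ∀ H : ℕ, ∑ c ∈ Cv 4 H, (Qn (Sh c.1 c.2) : ℝ) ≤ C * (Cv 4 H).card :=
  final_of' (by norm_num) par4' Pool.Agent.W29.RT.low4 box4'

end Pool.Agent.U409.SH
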