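import Pool.Agent.U409.SH.Avg
import Pool.Agent.W571.RT.Rank2
import Pool.Agent.W230.RT.Avg2
import Pool.Agent.W307.RT.Main6

/-!
# The average of `2 ^ rank * #Ш[2]` over coprime pairs

Adapted from `Pool.Agent.W571.RT.Rank2` and `Pool.Agent.W230.RT.Avg2`.
-/

set_option autoImplicit false
set_option linter.unusedSectionVars false

namespace Pool.Agent.U409.SH

open Finset Pool.Agent.W262.RK Pool.Agent.W307.RT Pool.Agent.W571.RT Pool.Agent.W230.RT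
open Pool.Agent.W262.SH (E Sha)

/-- RANK2 with `2 ^ rank * #Ш[2]` -/
def RANK2' : Prop := ∀ (J : Type) [Fintype J] [DecidableEq J] (cls : J → Fin 4) (a : Fin 3 → ℤ)
  (μ : J → ℕ) (α β : J → ℤ) (z : ℕ), (∀ j, cls j ≠ 3) → (∀ k, a k ≠ 0) → (∀ j, 1 ≤ μ j) →
  Bg α β z → (∀ p : ℕ, p.Prime → z < p → ∀ k, ¬ (p : ℤ) ∣ a k) →
  (∀ k, Even (∑ l ∈ fc cls k, μ l)) → (∀ j, kapM cls a μ α β j ≠ 0) →
  (∀ j, (kapM cls a μ α β j).natAbs ≤ z) →
  (∀ j, Odd (μ j) ∨ IsSquare (kapM cls a μ α β j)) →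
  (∀ u v : ℤ, FM cls a μ (fv α β u v) 0 - FM cls a μ (fv α β u v) 1 =
    FM cls a μ (fv α β u v) 2) →
  ∀ (X y k : ℕ) (u v : ℤ), IsCoprime u v → (∀ j, fv α β u v j ≠ 0) →
  (∀ j, (fv α β u v j).natAbs ≤ X ^ 2) → 1 ≤ X → 1 ≤ y → X < (y + 1) ^ k →
    qq (FM cls a μ (fv α β u v) 0) (FM cls a μ (fv α β u v) 1) ≤
      4 ^ (z + 2) * (16 ^ Fintype.card J) ^ k *
        4 ^ (∑ j, (S2 z y (fv α β u v) j).primeFactors.card) *
        NL (∏ j, S1 z y (fv α β u v) j)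
          (LLs cls (fun j _ => kapM cls a μ α β j) (S1 z y (fv α β u v)) ∅)

/-- AVG2 with `2 ^ rank * #Ш[2]` -/
def AVG2' : Prop := ∀ (J : Type) [Fintype J] [DecidableEq J] (cls : J → Fin 4) (a : Fin 3 → ℤ)
  (μ : J → ℕ) (α β : J → ℤ), (∀ j, cls j ≠ 3) → (∀ k, a k ≠ 0) → (∀ j, 1 ≤ μ j) →
  (∀ j, α j ≠ 0) → (∀ j l, j ≠ l → Res α β j l ≠ 0) →
  (∀ k, Even (∑ l ∈ fc cls k, μ l)) → (∀ j, Odd (μ j) ∨ IsSquare (kapM cls a μ α β j)) →
  (∀ u v : ℤ, FM cls a μ (fv α β u v) 0 - FM cls a μ (fv α β u v) 1 =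
    FM cls a μ (fv α β u v) 2) →
  (∃ z0 : ℕ, ∀ z, z0 ≤ z → ∃ C' : ℝ, ∀ y, z < y →
    ∑ s ∈ Tup J z y, NB cls (fun j _ => kapM cls a μ α β j) s *
      ∏ j, gw 1 (Fintype.card J) (s j) ≤ C' * (Real.log y) ^ (Fintype.card J)) →
  ∃ C : ℝ, ∀ X : ℕ, 1 ≤ X → ∑ t ∈ (Icc 1 X ×ˢ Icc 1 X).filter (fun t : ℕ × ℕ =>
      t.1.Coprime t.2 ∧ ∀ j, fv α β (t.1 : ℤ) (t.2 : ℤ) j ≠ 0),
    (qq (FM cls a μ (fv α β (t.1 : ℤ) (t.2 : ℤ)) 0)
      (FM cls a μ (fv α β (t.1 : ℤ) (t.2 : ℤ)) 1) : ℝ) ≤ C * X ^ 2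

variable {J : Type} [Fintype J] [DecidableEq J]

theorem rank2' : RANK2' := by
  intro J _ _ cls a μ α β z hc3 ha0 hμ hB ha hev hκ0 hκ hodd hFF X y k u v huv h0 hb hX hy hk
  have hF := hFF u v
  set f := fv α β u v with hf
  have hFne : ∀ k, FM cls a μ f k ≠ 0 := fun k =>
    mul_ne_zero (ha0 k) (prod_ne_zero_iff.2 fun l _ => pow_ne_zero _ (h0 l))
  have hz2 : 2 ≤ z := by have := hB.1; omega
  set s := S1 z y f with hs
  have hmem : s ∈ Tup J z y := S1_mem (fun p hp hzp j l hjl h =>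
    fv_not_dvd hB hp hzp huv hjl h.1 h.2)
  have hmd : ∏ j, s j ∣ PP z y := Tup_prod_dvd hmem
  have hPSof : ∀ p : ℕ, p.Prime → p ∣ ∏ j, s j → p ∈ PS z y := fun p hp h =>
    (prime_dvd_PP hp).1 (h.trans hmd)
  have hnκ : ∀ p : ℕ, p.Prime → p ∣ ∏ j, s j → ∀ j, ¬ (p : ℤ) ∣ kapM cls a μ α β j := by
    intro p hp h j hd
    have h1 := (mem_PS.1 (hPSof p hp h)).1.1
    have h2 := Nat.le_of_dvd (Int.natAbs_pos.2 (hκ0 j)) (Int.natCast_dvd.1 hd)
    have h3 := hκ j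
    omega
  have hodd2 : ∀ p : ℕ, p.Prime → p ∣ ∏ j, s j → p ≠ 2 := by
    intro p hp h
    have h1 := (mem_PS.1 (hPSof p hp h)).1.1
    omega
  have hxc : XCL := Pool.Agent.W342.RK2.xcl
  have hd := qq_le (∏ j, s j) (LLs cls (fun j _ => kapM cls a μ α β j) s ∅)
    (FM cls a μ f 0) (FM cls a μ f 1) (hFne 0) (hFne 1)
    (fun h => hFne 2 (by rw [← hF, h, sub_self]))
    (by
      rw [← Nat.not_even_iff_odd, even_iff_two_dvd]
      intro h
      exact hodd2 2 Nat.prime_two h rfl)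
    ((PP_squarefree z y).squarefree_of_dvd hmd)
    (fun p hp hpd => ⟨fun j hj => (hxc _ _ _ p hp (hodd2 p hp hpd)
        (fun _ => hnκ p hp hpd j)).1,
      fun a1 b1 c1 d1 a2 b2 c2 d2 e1 e2 j hj =>
        (hxc _ _ _ p hp (hodd2 p hp hpd) (fun _ => hnκ p hp hpd j)).2 a1 b1 c1 d1 a2 b2 c2 d2
          (e1 j hj) (e2 j hj)⟩)
    (fun p hp hpd e1 e2 he1 he2 hsol j hj => by
      have hpp : p.Prime := Fact.out
      have hjs := (S1_dvd_iff hpp).1 hj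
      have hzp := (mem_PS.1 hjs.1).1.1
      have hfin := locm' (cls j) (kapM cls a μ α β j) p (FM cls a μ f 0) (FM cls a μ f 1) (hc3 j)
        (hodd2 p hpp hpd) (hnκ p hpp hpd j) (hFne 0) (hFne 1)
        (fun h => hFne 2 (by rw [← hF, h, sub_self]))
        (locHM hB ha hev hμ hpp hzp huv hF (h0 j) hjs.2.1 hjs.2.2 (hc3 j) (hnκ p hpp hpd j)
          (hodd j)) e1 e2 he1 he2 hsol
      have hdec : decide (p ∈ (∅ : Finset ℕ)) = false := by simp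
      rw [hdec]
      exact hfin)
  rw [hF] at hd
  refine hd.trans (Nat.mul_le_mul_right _ ?_)
  have hc := badM (cls := cls) (μ := μ) (y := y) hB ha hX hy h0 hb hk
  rw [← hf, ← hs] at hc
  calc 4 ^ (((2 * FM cls a μ f 0 * FM cls a μ f 1 *
        FM cls a μ f 2).natAbs.primeFactors.filter (fun q => ¬ q ∣ ∏ j, s j)).card + 2)
      ≤ 4 ^ ((z + 2) + (Fintype.card J * (2 * k)) + ∑ j, (S2 z y f j).primeFactors.card) :=
        Nat.pow_le_pow_right (by norm_num) (by omega)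
    _ = _ := by
        rw [pow_add, pow_add]
        congr 2
        rw [← pow_mul, show (16 : ℕ) = 4 ^ 2 by norm_num, ← pow_mul]
        congr 1
        ring


theorem avg2_of' (hcnt : CNT2) (hant : ANT) : AVG2' := by
  intro J _ _ cls a μ α β hcls ha hμ hα hR hev hodd hF hsum
  classical
  obtain ⟨z0, hz0⟩ := hsum
  set N := Fintype.card J with hN
  set κ : J → Fin 3 → ℤ := fun j _ => kapM cls a μ α β j with hκdef
  set z : ℕ := z0 + (2 * N + 2) + ∑ k, (a k).natAbs + ∑ j, (α j).natAbs +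
    ∑ j, ∑ l, (Res α β j l).natAbs + ∑ j, (kapM cls a μ α β j).natAbs with hz
  have hB : Bg α β z := by
    refine ⟨by omega, fun p hp hzp => ⟨fun j h => ?_, fun j l hjl h => ?_⟩⟩
    · have h1 := Nat.le_of_dvd (Int.natAbs_pos.2 (hα j)) (Int.natCast_dvd.1 h)
      have h2 := single_le_sum (f := fun j => (α j).natAbs) (fun _ _ => Nat.zero_le _) (mem_univ j)
      omega
    · have h1 := Nat.le_of_dvd (Int.natAbs_pos.2 (hR j l hjl)) (Int.natCast_dvd.1 h)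
      have h2 := single_le_sum (f := fun l => (Res α β j l).natAbs) (fun _ _ => Nat.zero_le _)
        (mem_univ l)
      have h3 := single_le_sum (f := fun j => ∑ l, (Res α β j l).natAbs) (fun _ _ => Nat.zero_le _)
        (mem_univ j)
      omega
  have hpa : ∀ p : ℕ, p.Prime → z < p → ∀ k, ¬ (p : ℤ) ∣ a k := by
    intro p hp hzp k h
    have h1 := Nat.le_of_dvd (Int.natAbs_pos.2 (ha k)) (Int.natCast_dvd.1 h)
    have h2 := single_le_sum (f := fun k => (a k).natAbs) (fun _ _ => Nat.zero_le _) (mem_univ k)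
    omega
  have hκ0 : ∀ j, kapM cls a μ α β j ≠ 0 := kapM_ne ha hR
  have hκz : ∀ j, (kapM cls a μ α β j).natAbs ≤ z := by
    intro j
    have h2 := single_le_sum (f := fun j => (kapM cls a μ α β j).natAbs)
      (fun _ _ => Nat.zero_le _) (mem_univ j)
    omega
  have hz2 : 2 ≤ z := by omega
  obtain ⟨C', hC'⟩ := hz0 z (by omega)
  obtain ⟨C, K, y0, hC0, hK1, hcn⟩ := hcnt J α β z hB
  have hsubb : SUBB := Pool.Agent.W125.RK2.subb_of Pool.Agent.W125.RK2.sub4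
    Pool.Agent.W342.RK2.xcl
  set y1 : ℕ := y0 + ∑ j, ((α j).natAbs + (β j).natAbs) + 1 with hy1
  have key := hant J (ℕ × ℕ) (fun X => (Icc 1 X ×ˢ Icc 1 X).filter (fun t : ℕ × ℕ =>
      t.1.Coprime t.2 ∧ ∀ j, fv α β (t.1 : ℤ) (t.2 : ℤ) j ≠ 0))
    (fun t => fv α β (t.1 : ℤ) (t.2 : ℤ)) (fun X => (X : ℝ) ^ 2) z (NB cls κ)
    (fun t => (qq (FM cls a μ (fv α β (t.1 : ℤ) (t.2 : ℤ)) 0)
      (FM cls a μ (fv α β (t.1 : ℤ) (t.2 : ℤ)) 1) : ℝ))
    (C * 4 ^ (z + 2)) C' (16 ^ N) K y1 (by omega) (fun X Y hXY => ?_) (fun X hX => ?_)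
    (fun X ω hω => ?_) (fun s => ?_) (fun t => by positivity) (by positivity)
    (one_le_pow₀ (by norm_num)) hK1
    (fun y hy s e hse => hsubb J cls κ z y hz2 (fun j _ => hκ0 j) (fun j _ => hκz j) s e hse)
    hC' ?_
  · exact key
  · intro t ht
    rw [mem_filter, mem_product, mem_Icc, mem_Icc] at ht
    rw [mem_filter, mem_product, mem_Icc, mem_Icc]
    exact ⟨⟨⟨ht.1.1.1, ht.1.1.2.trans hXY⟩, ⟨ht.1.2.1, ht.1.2.2.trans hXY⟩⟩, ht.2⟩
  · have : (1 : ℝ) ≤ X := by exact_mod_cast hX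
    exact one_le_pow₀ this
  · rw [mem_filter] at hω
    exact gd_fv hB hω.2.1 hω.2.2
  · unfold NB
    exact mul_nonneg (by positivity) (sum_nonneg fun _ _ => Nat.cast_nonneg _)
  intro X y Y k hy0 hzy hyK hk s hs v hv u hu h8 T' hT' hT2
  have hy00 : y0 ≤ y := by omega
  have hyX : y ≤ X := le_trans (Nat.le_self_pow (by omega) y) hyK
  have hX1 : 1 ≤ X := by omega
  set g : ℝ := (NL (∏ j, s j) (LLs cls κ s ∅) : ℝ) with hg
  have hg0 : 0 ≤ g := Nat.cast_nonneg _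
  have h1 : ∀ t ∈ T', (qq (FM cls a μ (fv α β (t.1 : ℤ) (t.2 : ℤ)) 0)
        (FM cls a μ (fv α β (t.1 : ℤ) (t.2 : ℤ)) 1) : ℝ) ≤
      4 ^ (z + 2) * (16 ^ N) ^ k * 4 ^ (∑ j, (v j).primeFactors.card) * g := by
    intro t ht
    have ht1 := hT' ht
    rw [mem_filter, mem_product, mem_Icc, mem_Icc] at ht1
    obtain ⟨hts, htv, _⟩ := hT2 t ht
    have hr := rank2' J cls a μ α β z hcls ha hμ hB hpa hev hκ0 hκz hodd hF X y k (t.1 : ℤ)
      (t.2 : ℤ) (Nat.isCoprime_iff_coprime.2 ht1.2.1) ht1.2.2 (fun j => by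
        unfold fv
        have h3 := Int.natAbs_add_le (α j * (t.1 : ℤ)) (β j * (t.2 : ℤ))
        rw [Int.natAbs_mul, Int.natAbs_mul, Int.natAbs_natCast, Int.natAbs_natCast] at h3
        have h4 := single_le_sum (f := fun j => (α j).natAbs + (β j).natAbs)
          (fun _ _ => Nat.zero_le _) (mem_univ j)
        have h5 : t.1 ≤ X := ht1.1.1.2
        have h5' : t.2 ≤ X := ht1.1.2.2
        have h6 : (α j).natAbs + (β j).natAbs ≤ X := by
          have h4' : (α j).natAbs + (β j).natAbs ≤ ∑ j, ((α j).natAbs + (β j).natAbs) := h4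
          omega
        calc (α j * (t.1 : ℤ) + β j * (t.2 : ℤ)).natAbs
            ≤ (α j).natAbs * t.1 + (β j).natAbs * t.2 := h3
          _ ≤ (α j).natAbs * X + (β j).natAbs * X :=
              add_le_add (Nat.mul_le_mul_left _ h5) (Nat.mul_le_mul_left _ h5')
          _ = ((α j).natAbs + (β j).natAbs) * X := by ring
          _ ≤ X * X := Nat.mul_le_mul_right _ h6
          _ = X ^ 2 := by ring) hX1 (by omega) hk
    have hts' : S1 z y (fv α β (t.1 : ℤ) (t.2 : ℤ)) = s := hts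
    have htv' : S2 z y (fv α β (t.1 : ℤ) (t.2 : ℤ)) = v := htv
    rw [hts', htv'] at hr
    rw [hg, hN]
    exact_mod_cast hr
  set Q : ℝ := C * X ^ 2 * (∏ j, gw 1 N (s j)) *
        (∏ j, gw 1 N (v j) / v j) * (∏ j, 1 / (u j : ℝ)) / (Real.log y) ^ N with hQ
  have h3 : (T'.card : ℝ) ≤ Q := by
    refine le_trans ?_ (hcn X y Y hy00 hzy hyK s hs v hv u hu h8)
    have h4 : T' ⊆ (Icc 1 X ×ˢ Icc 1 X).filter (fun t : ℕ × ℕ => t.1.Coprime t.2 ∧
        S1 z y (fv α β (t.1 : ℤ) (t.2 : ℤ)) = s ∧ S2 z y (fv α β (t.1 : ℤ) (t.2 : ℤ)) = v ∧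
        ∀ j, (u j : ℤ) ∣ fv α β (t.1 : ℤ) (t.2 : ℤ) j) := by
      intro t ht
      have ht1 := hT' ht
      rw [mem_filter] at ht1
      rw [mem_filter]
      exact ⟨ht1.1, ht1.2.1, (hT2 t ht).1, (hT2 t ht).2.1, (hT2 t ht).2.2⟩
    exact_mod_cast card_le_card h4
  calc ∑ t ∈ T', (qq (FM cls a μ (fv α β (t.1 : ℤ) (t.2 : ℤ)) 0)
            (FM cls a μ (fv α β (t.1 : ℤ) (t.2 : ℤ)) 1) : ℝ)
      ≤ ∑ _t ∈ T', (4 : ℝ) ^ (z + 2) * (16 ^ N) ^ k * 4 ^ (∑ j, (v j).primeFactors.card) * g :=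
        sum_le_sum h1
    _ = (T'.card : ℝ) *
          (4 ^ (z + 2) * (16 ^ N) ^ k * 4 ^ (∑ j, (v j).primeFactors.card) * g) := by
        rw [sum_const, nsmul_eq_mul]
    _ ≤ Q * (4 ^ (z + 2) * (16 ^ N) ^ k * 4 ^ (∑ j, (v j).primeFactors.card) * g) :=
        mul_le_mul_of_nonneg_right h3 (by positivity)
    _ = _ := by
        have e1 : NB cls κ s = g := nb_eq hcls κ s
        have e2 : (∏ j, (4 : ℝ) ^ (v j).primeFactors.card * (gw 1 N (v j) / v j)) =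
            4 ^ (∑ j, (v j).primeFactors.card) * ∏ j, (gw 1 N (v j) / v j) := by
          rw [prod_mul_distrib, prod_pow_eq_pow_sum]
        rw [e1, e2, hQ]
        ring

/-- the average over coprime pairs -/
theorem avg2' : AVG2' :=
  avg2_of' (Pool.Agent.W29.RT.cnt2_of Pool.Agent.W340.RT.SVR2.svr2 Pool.Agent.W216.RT.AVH.avh)
    (Pool.Agent.W45.RT.ant_of Pool.Agent.W405.RK2.rs Pool.Agent.W591.RK2.rv
      Pool.Agent.W591.RK2.ru Pool.Agent.W358.RK2.gr)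

end Pool.Agent.U409.SH

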