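import Pool.Agent.U409.SH.Loc
import Pool.Agent.W214.RK2.Desc4

/-!
# The number of the pairs of square classes that satisfy the local conditions
-/

set_option autoImplicit false

namespace Pool.Agent.U409.SH

open Finset Pool.Agent.W262.RK Pool.Agent.W599.RK Pool.Agent.W214.RK2
open Pool.Agent.W262.SH (LocSol SelS)

/-- at the primes of good reduction the square classes are unramified -/
theorem good_sol {p : ℕ} [hp : Fact p.Prime] {A B e1 e2 : ℤ}
    (hAB : ¬ (p : ℤ) ∣ 2 * A * B * (A - B)) (he1 : Squarefree e1) (he2 : Squarefree e2)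
    (h : LocSol p A B e1 e2) : dv p e1 = false ∧ dv p e2 = false := by
  have hq1 := Pool.Agent.W342.RK2.not_sq_of_squarefree (p := p) he1
  have hq2 := Pool.Agent.W342.RK2.not_sq_of_squarefree (p := p) he2
  obtain ⟨x, hx, hxA, hxB, hsq, hs1, hs2, -⟩ := locSol_facts he1.ne_zero he2.ne_zero h
  obtain ⟨h1, h2, -⟩ := good' hAB hx hxA hxB hsq
  exact ⟨(Pool.Agent.W342.RK2.par hx hq1 hs1).1 h1, (Pool.Agent.W342.RK2.par hxA hq2 hs2).1 h2⟩

/-- the parity of the valuation of a squarefree integer -/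
lemma even_val_sqf {p : ℕ} [hp : Fact p.Prime] {e : ℤ} (he : Squarefree e) :
    Even (padicValRat p (e : ℚ)) ↔ dv p e = false :=
  Pool.Agent.W342.RK2.par (Int.cast_ne_zero.2 he.ne_zero)
    (Pool.Agent.W342.RK2.not_sq_of_squarefree he) ⟨((e : ℤ) : ℚ_[p]), by push_cast; ring⟩

/-- squarefree integers with the same square class -/
lemma eq_of_sq {a b : ℤ} (ha : Squarefree a) (hb : Squarefree b) (h : IsSquare ((a * b : ℤ) : ℚ)) :
    a = b := by
  have h1 : IsSquare (a * b) := Rat.isSquare_intCast_iff.1 h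
  have hpos : 0 < a * b := by
    obtain ⟨r, hr⟩ := h1
    rcases eq_or_ne r 0 with rfl | hr0
    · exact absurd hr (by simpa using mul_ne_zero ha.ne_zero hb.ne_zero)
    · rw [hr]
      exact mul_self_pos.2 hr0
  obtain ⟨r, hr⟩ := h1
  have key : ∀ (a b : ℤ), Squarefree a → a * b = r * r → ∀ p : ℕ, p.Prime →
      p ∣ a.natAbs → p ∣ b.natAbs := by
    intro a b ha hr p hp hpa
    have hpi := Nat.prime_iff_prime_int.1 hp
    have h2 : (p : ℤ) ∣ a := Int.natCast_dvd.2 hpa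
    have h3 : (p : ℤ) ∣ r := by
      have : (p : ℤ) ∣ r * r := hr ▸ h2.mul_right b
      rcases hpi.dvd_or_dvd this with h | h <;> exact h
    obtain ⟨r', rfl⟩ := h3
    obtain ⟨a', rfl⟩ := h2
    rw [← Int.natCast_dvd]
    have hp0 : (p : ℤ) ≠ 0 := by exact_mod_cast hp.ne_zero
    have h4 : a' * b = p * (r' * r') := by
      apply mul_left_cancel₀ hp0
      linear_combination hr
    have h5 : (p : ℤ) ∣ a' * b := ⟨_, h4⟩
    rcases hpi.dvd_or_dvd h5 with h | h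
    · exact absurd (ha p (mul_dvd_mul_left _ h)) hpi.not_unit
    · exact h
  have h2 : a.natAbs = b.natAbs := by
    rw [Nat.Squarefree.ext_iff (Int.squarefree_natAbs.2 ha) (Int.squarefree_natAbs.2 hb)]
    intro p hp
    exact ⟨key a b ha hr p hp, key b a hb (by rw [mul_comm]; exact hr) p hp⟩
  rcases Int.natAbs_eq_natAbs_iff.1 h2 with h3 | h3
  · exact h3
  · exfalso
    rw [h3] at hpos
    nlinarith [mul_self_nonneg b]

/-- the outer data of a pair of square classes -/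
noncomputable def oute (OP : Finset ℕ) (e : ℤ × ℤ) : Out OP := by
  classical exact
  (decide (0 < e.1), decide (0 < e.2), fun q => (dv q.1 e.1, dv q.1 e.2))

/-- the number of the pairs -/
theorem desc5 (m : ℕ) (L : ℕ → Bool → Bool → Bool → Bool → Prop) (A B : ℤ) (hA : A ≠ 0)
    (hB : B ≠ 0) (hAB : A ≠ B) (hm : Squarefree m)
    (hL : ∀ p, p.Prime → p ∣ m → XC (L p))
    (hloc : ∀ (p : ℕ) [Fact p.Prime], p ∣ m → ∀ e1 e2 : ℤ, Squarefree e1 → Squarefree e2 →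
      LocSol p A B e1 e2 → L p (dv p e1) (dv p e2) (sgn p e1) (sgn p e2)) (hodd : Odd m) :
    (SelS A B).Finite ∧ (SelS A B).ncard ≤
      4 ^ (((2 * A * B * (A - B)).natAbs.primeFactors.filter (fun q => ¬ q ∣ m)).card + 2) *
        NL m L := by
  classical
  set OP : Finset ℕ := (2 * A * B * (A - B)).natAbs.primeFactors.filter (fun q => ¬ q ∣ m)
    with hOPdef
  have hD0 : 2 * A * B * (A - B) ≠ 0 :=
    mul_ne_zero (mul_ne_zero (mul_ne_zero two_ne_zero hA) hB) (sub_ne_zero.mpr hAB)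
  have hOP : ∀ q : ℕ, q.Prime → (q : ℤ) ∣ 2 * A * B * (A - B) → ¬ q ∣ m → q ∈ OP := by
    intro q hq hqd hqs
    rw [hOPdef, Finset.mem_filter, Nat.mem_primeFactors]
    exact ⟨⟨hq, Int.natCast_dvd.mp hqd, Int.natAbs_ne_zero.mpr hD0⟩, hqs⟩
  set F : Finset (ℕ × ℕ) := (m.divisors ×ˢ m.divisors).filter (fun d : ℕ × ℕ =>
    ∀ p ∈ m.primeFactors, L p (dv p d.1) (dv p d.2) (sgn p d.1) (sgn p d.2)) with hF
  have hFcard : F.card = NL m L := by
    unfold NL
    rw [hF]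
  have hne2 : ∀ p : ℕ, p ∣ m → p ≠ 2 := by
    rintro p h rfl
    exact (Nat.not_even_iff_odd.2 hodd) (even_iff_two_dvd.2 h)
  -- comparison
  have hcmp : ∀ e ∈ SelS A B, ∀ f ∈ SelS A B, oute OP e = oute OP f →
      (0 < e.1 ↔ 0 < f.1) ∧ (0 < e.2 ↔ 0 < f.2) ∧
      (∀ q : ℕ, q.Prime → ¬ q ∣ m →
        (Even (padicValRat q (e.1 : ℚ)) ↔ Even (padicValRat q (f.1 : ℚ))) ∧
        (Even (padicValRat q (e.2 : ℚ)) ↔ Even (padicValRat q (f.2 : ℚ)))) := by
    rintro e ⟨he1, he2, he⟩ f ⟨hf1, hf2, hf⟩ ho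
    have h1 : decide (0 < e.1) = decide (0 < f.1) := congrArg Prod.fst ho
    have h23 := congrArg Prod.snd ho
    have h2 : decide (0 < e.2) = decide (0 < f.2) := congrArg Prod.fst h23
    have h3 := congrArg Prod.snd h23
    refine ⟨decide_eq_decide.mp h1, decide_eq_decide.mp h2, fun q hq hqm => ?_⟩
    have : Fact q.Prime := ⟨hq⟩
    rw [even_val_sqf he1, even_val_sqf he2, even_val_sqf hf1, even_val_sqf hf2]
    by_cases hD : (q : ℤ) ∣ 2 * A * B * (A - B)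
    · have h4 := congrFun h3 ⟨q, hOP q hq hD hqm⟩
      have h5 : dv q e.1 = dv q f.1 := congrArg Prod.fst h4
      have h6 : dv q e.2 = dv q f.2 := congrArg Prod.snd h4
      rw [h5, h6]
      exact ⟨Iff.rfl, Iff.rfl⟩
    · have hq2 : q ≠ 2 := by
        rintro rfl
        exact hD (Dvd.dvd.mul_right (Dvd.dvd.mul_right (Dvd.dvd.mul_right (by norm_num) _) _) _)
      obtain ⟨a1, a2⟩ := good_sol hD he1 he2 (he q hq2)
      obtain ⟨b1, b2⟩ := good_sol hD hf1 hf2 (hf q hq2)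
      rw [a1, a2, b1, b2]
      exact ⟨Iff.rfl, Iff.rfl⟩
  have h0 : ∀ e : ℤ, Squarefree e → (e : ℚ) ≠ 0 := fun e he => Int.cast_ne_zero.2 he.ne_zero
  have hpos : ∀ e : ℤ, (0 : ℚ) < (e : ℚ) ↔ 0 < e := fun e => Int.cast_pos
  have hsqs : ∀ e ∈ SelS A B, ∀ f ∈ SelS A B, oute OP e = oute OP f →
      IsSquare ((e.1 : ℚ) * f.1 * (dd m e.1 f.1 : ℚ)) ∧
      IsSquare ((e.2 : ℚ) * f.2 * (dd m e.2 f.2 : ℚ)) := by
    intro e he f hf ho
    obtain ⟨c1, c2, c3⟩ := hcmp e he f hf ho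
    exact ⟨dd_sq m hm _ _ (h0 _ he.1) (h0 _ hf.1) (by rw [hpos, hpos]; exact c1)
      (fun q hq hqm => (c3 q hq hqm).1),
      dd_sq m hm _ _ (h0 _ he.2.1) (h0 _ hf.2.1) (by rw [hpos, hpos]; exact c2)
      (fun q hq hqm => (c3 q hq hqm).2)⟩
  have hself : ∀ e : ℤ, IsSquare ((e : ℚ) * e) := fun e => ⟨_, rfl⟩
  have hFmem : ∀ e ∈ SelS A B, ∀ f ∈ SelS A B, oute OP e = oute OP f →
      (dd m e.1 f.1, dd m e.2 f.2) ∈ F := by
    intro e he f hf ho
    obtain ⟨s1, s2⟩ := hsqs e he f hf ho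
    rw [hF, Finset.mem_filter, Finset.mem_product]
    refine ⟨⟨Nat.mem_divisors.mpr ⟨dd_dvd m hm _ _, hm.ne_zero⟩,
      Nat.mem_divisors.mpr ⟨dd_dvd m hm _ _, hm.ne_zero⟩⟩, fun p hp => ?_⟩
    rw [Nat.mem_primeFactors] at hp
    have : Fact p.Prime := ⟨hp.1⟩
    have l1 := hloc p hp.2.1 e.1 e.2 he.1 he.2.1 (he.2.2 p (hne2 p hp.2.1))
    have l2 := hloc p hp.2.1 f.1 f.2 hf.1 hf.2.1 (hf.2.2 p (hne2 p hp.2.1))
    obtain ⟨k1, k2⟩ := dd_key m hm _ _ (h0 _ he.1) (h0 _ hf.1) s1 e.1 f.1 he.1 hf.1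
      (hself _) (hself _) p hp.1
    obtain ⟨k3, k4⟩ := dd_key m hm _ _ (h0 _ he.2.1) (h0 _ hf.2.1) s2 e.2 f.2 he.2.1 hf.2.1
      (hself _) (hself _) p hp.1
    show L p (dv p (dd m e.1 f.1)) (dv p (dd m e.2 f.2))
      (sgn p (dd m e.1 f.1)) (sgn p (dd m e.2 f.2))
    rw [k1, k2, k3, k4]
    exact (hL p hp.1 hp.2.1).2 _ _ _ _ _ _ _ _ l1 l2
  -- representatives
  let rep : Out OP → ℤ × ℤ := fun o =>
    if h : ∃ f ∈ SelS A B, oute OP f = o then h.choose else (1, 1)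
  have hrep : ∀ e ∈ SelS A B, rep (oute OP e) ∈ SelS A B ∧
      oute OP (rep (oute OP e)) = oute OP e := by
    intro e he
    have h : ∃ f ∈ SelS A B, oute OP f = oute OP e := ⟨e, he, rfl⟩
    have e1 : rep (oute OP e) = h.choose := dif_pos h
    rw [e1]
    exact h.choose_spec
  let key : ℤ × ℤ → Out OP × (ℕ × ℕ) := fun e =>
    (oute OP e, (dd m e.1 (rep (oute OP e)).1, dd m e.2 (rep (oute OP e)).2))
  have hmaps : Set.MapsTo key (SelS A B)
      (((Finset.univ : Finset (Out OP)) ×ˢ F : Finset (Out OP × (ℕ × ℕ))) :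
        Set (Out OP × (ℕ × ℕ))) := by
    intro e he
    rw [Finset.mem_coe, Finset.mem_product]
    obtain ⟨h1, h2⟩ := hrep e he
    exact ⟨Finset.mem_univ _, hFmem e he _ h1 h2.symm⟩
  have canc : ∀ a b r : ℚ, ∀ d : ℕ, r ≠ 0 → d ≠ 0 → IsSquare (a * r * (d : ℚ)) →
      IsSquare (b * r * (d : ℚ)) → IsSquare (a * b) := by
    intro a b r d hr hd h1 h2
    have hd' : (d : ℚ) ≠ 0 := by exact_mod_cast hd
    apply Pool.Agent.W599.RK.IsSquare.cancel (a := (r * d) ^ 2) (IsSquare.sq _)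
    · have h3 := h1.mul h2
      have e : (r * (d : ℚ)) ^ 2 * (a * b) = a * r * d * (b * r * d) := by ring
      rw [e]; exact h3
    · exact pow_ne_zero 2 (mul_ne_zero hr hd')
  have hinj : Set.InjOn key (SelS A B) := by
    intro e he f hf hk
    have ho : oute OP e = oute OP f := congrArg Prod.fst hk
    have ht1 : dd m e.1 (rep (oute OP e)).1 = dd m f.1 (rep (oute OP f)).1 :=
      congrArg (fun z => z.2.1) hk
    have ht2 : dd m e.2 (rep (oute OP e)).2 = dd m f.2 (rep (oute OP f)).2 :=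
      congrArg (fun z => z.2.2) hk
    obtain ⟨g1, g2⟩ := hrep e he
    obtain ⟨s1, s2⟩ := hsqs e he _ g1 g2.symm
    have g3 : oute OP f = oute OP (rep (oute OP e)) := by rw [g2, ho]
    obtain ⟨s3, s4⟩ := hsqs f hf _ g1 g3
    rw [← ho] at ht1 ht2
    rw [← ht1] at s3
    rw [← ht2] at s4
    have hd1 : dd m e.1 (rep (oute OP e)).1 ≠ 0 :=
      (hm.squarefree_of_dvd (dd_dvd m hm _ _)).ne_zero
    have hd2 : dd m e.2 (rep (oute OP e)).2 ≠ 0 :=
      (hm.squarefree_of_dvd (dd_dvd m hm _ _)).ne_zero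
    have q1 := canc _ _ _ _ (h0 _ g1.1) hd1 s1 s3
    have q2 := canc _ _ _ _ (h0 _ g1.2.1) hd2 s2 s4
    exact Prod.ext (eq_of_sq he.1 hf.1 (by push_cast; exact q1))
      (eq_of_sq he.2.1 hf.2.1 (by push_cast; exact q2))
  have hfin : (SelS A B).Finite := Set.Finite.of_injOn hmaps hinj (Finset.finite_toSet _)
  refine ⟨hfin, ?_⟩
  have h1 := Set.ncard_le_ncard_of_injOn key hmaps hinj (Finset.finite_toSet _)
  rw [Set.ncard_coe_finset, Finset.card_product, Finset.card_univ, card_out, hFcard] at h1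
  refine h1.trans (Nat.mul_le_mul_right _ (Nat.pow_le_pow_right (by norm_num) (by omega)))

end Pool.Agent.U409.SH
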