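import Pool.Agent.TH841.SH.Loc
import Pool.Agent.U409.SH.Loc

/-!
# Selmer homomorphisms and pairs of square classes
-/

set_option autoImplicit false

namespace Pool.Agent.U409.SH

open WeierstrassCurve
open Pool.Agent.W262.SH (QB Pt act IsCoc IsCob LocTriv shaCoc cob Sha E IsSel LocSol SelS)
open Pool.Agent.TH841.SH (IsR IsX)

open scoped Classical

lemma isR (A B : ℤ) : IsR (E A B) 0 (A : ℚ) (B : ℚ) where
  h1 := rfl
  h2 := by
    show -((A : ℚ) + B) = _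
    ring
  h3 := rfl
  h4 := by
    show (A : ℚ) * B = _
    ring
  h6 := by
    show (0 : ℚ) = _
    ring

section pad

variable {p : ℕ} [hp : Fact p.Prime]

/-- a nearby number has the same square class -/
lemma near_p (hp2 : p ≠ 2) {x x' : ℚ_[p]} (hx : x ≠ 0) (h : ‖x - x'‖ < ‖x‖) :
    x' ≠ 0 ∧ IsSquare (x * x') := by
  have hr : ‖(x' - x) / x‖ < 1 := by
    rw [norm_div, div_lt_one (norm_pos_iff.2 hx), norm_sub_rev]
    exact h
  obtain ⟨u, hu⟩ := Pool.Agent.W22.RK.isSquare_one_add hp2 ((x' - x) / x) hr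
  have e : x' = x * (1 + (x' - x) / x) := by
    field_simp
    ring
  refine ⟨?_, x * u, ?_⟩
  · rintro rfl
    rw [sub_zero] at h
    exact lt_irrefl _ h
  · rw [e, hu]
    ring

/-- squares multiply -/
lemma sq_trans {x y z : ℚ_[p]} (hx : x ≠ 0) (h1 : IsSquare (x * y)) (h2 : IsSquare (x * z)) :
    IsSquare (y * z) := by
  obtain ⟨u, hu⟩ := h1
  obtain ⟨v, hv⟩ := h2
  refine ⟨u * v / x, ?_⟩
  have : u * v / x * (u * v / x) = (u * u) * (v * v) / (x * x) := by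
    rw [div_mul_div_comm]
    ring
  rw [this, ← hu, ← hv]
  field_simp

/-- there are points with large square coordinates -/
lemma big_point (hp2 : p ≠ 2) (A B : ℤ) : ∃ x y : ℚ_[p], y ≠ 0 ∧
    y ^ 2 = (x - 0) * (x - A) * (x - B) ∧ IsSquare (x - 0) ∧
      IsSquare (x - A) ∧ IsSquare (x - B) := by
  have hpc : ((p : ℕ) : ℚ_[p]) ≠ 0 := by exact_mod_cast hp.out.ne_zero
  set x : ℚ_[p] := (((p : ℕ) : ℚ_[p])⁻¹) * ((p : ℕ) : ℚ_[p])⁻¹ with hx
  have hx0 : x ≠ 0 := mul_ne_zero (inv_ne_zero hpc) (inv_ne_zero hpc)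
  have hn : 1 < ‖x‖ := by
    rw [hx, norm_mul, norm_inv, Padic.norm_p, inv_inv]
    have : (1 : ℝ) < p := by exact_mod_cast hp.out.one_lt
    nlinarith
  have key : ∀ A : ℤ, x - A ≠ 0 ∧ IsSquare (x - (A : ℚ_[p])) := by
    intro A
    have h1 : ‖x - (x - A)‖ < ‖x‖ := by
      rw [sub_sub_cancel]
      exact lt_of_le_of_lt (Padic.norm_int_le_one A) hn
    obtain ⟨h2, h3⟩ := near_p hp2 hx0 h1
    refine ⟨h2, ?_⟩
    have h4 : IsSquare (x * (1 : ℚ_[p])) := ⟨((p : ℕ) : ℚ_[p])⁻¹, by rw [mul_one]⟩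
    have := sq_trans hx0 h4 h3
    rwa [one_mul] at this
  obtain ⟨a0, u, hu⟩ := key 0
  obtain ⟨a1, v, hv⟩ := key A
  obtain ⟨a2, w, hw⟩ := key B
  rw [Int.cast_zero] at a0 hu
  refine ⟨x, u * v * w, ?_, ?_, ⟨u, hu⟩, ⟨v, hv⟩, ⟨w, hw⟩⟩
  · refine mul_ne_zero (mul_ne_zero ?_ ?_) ?_
    · rintro rfl
      rw [mul_zero] at hu
      exact a0 hu
    · rintro rfl
      rw [mul_zero] at hv
      exact a1 hv
    · rintro rfl
      rw [mul_zero] at hw
      exact a2 hw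
  · rw [hu, hv, hw]
    ring

/-- from a `p`-adic point to a rational number -/
lemma locSol_of (hp2 : p ≠ 2) {A B e1 e2 : ℤ}
    (h : ∃ x y : ℚ_[p], y ≠ 0 ∧ y ^ 2 = (x - 0) * (x - A) * (x - B) ∧
      IsSquare ((x - 0) * (e1 : ℚ_[p])) ∧ IsSquare ((x - A) * (e2 : ℚ_[p]))) :
    LocSol p A B e1 e2 := by
  obtain ⟨x, y, hy, hxy, h1, h2⟩ := h
  rw [sub_zero] at hxy h1
  have hy2 : y ^ 2 ≠ 0 := pow_ne_zero 2 hy
  rw [hxy] at hy2
  have hx : x ≠ 0 := left_ne_zero_of_mul (left_ne_zero_of_mul hy2)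
  have hxA : x - A ≠ 0 := right_ne_zero_of_mul (left_ne_zero_of_mul hy2)
  have hxB : x - B ≠ 0 := right_ne_zero_of_mul hy2
  set ε : ℝ := min ‖x‖ (min ‖x - A‖ ‖x - B‖) with hε
  have hε0 : 0 < ε := lt_min (norm_pos_iff.2 hx) (lt_min (norm_pos_iff.2 hxA) (norm_pos_iff.2 hxB))
  obtain ⟨r, hr⟩ := Padic.rat_dense p x hε0
  have hrn : ‖x - (r : ℚ_[p])‖ < ε := hr
  have k1 := near_p (x' := (r : ℚ_[p])) hp2 hx (hrn.trans_le (min_le_left _ _))
  have k2 := near_p (x' := (r : ℚ_[p]) - A) hp2 hxA (by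
    rw [sub_sub_sub_cancel_right]
    exact hrn.trans_le ((min_le_right _ _).trans (min_le_left _ _)))
  have k3 := near_p (x' := (r : ℚ_[p]) - B) hp2 hxB (by
    rw [sub_sub_sub_cancel_right]
    exact hrn.trans_le ((min_le_right _ _).trans (min_le_right _ _)))
  have h3 : IsSquare ((x - B) * ((e1 : ℚ_[p]) * e2)) := by
    obtain ⟨u, hu⟩ := h1
    obtain ⟨v, hv⟩ := h2
    refine ⟨y * u * v / (x * (x - A)), ?_⟩
    have e : y * u * v / (x * (x - A)) * (y * u * v / (x * (x - A))) =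
        y ^ 2 * (u * u) * (v * v) / ((x * (x - A)) * (x * (x - A))) := by
      rw [div_mul_div_comm]
      ring
    rw [e, ← hu, ← hv, hxy]
    field_simp
  refine ⟨r, ?_, ?_, ?_, ?_, ?_, ?_⟩
  · rintro rfl
    exact k1.1 (by simp)
  · rintro rfl
    exact k2.1 (by simp)
  · rintro rfl
    exact k3.1 (by simp)
  · have := sq_trans hx k1.2 h1
    push_cast
    exact this
  · have := sq_trans hxA k2.2 h2
    push_cast
    exact this
  · have := sq_trans hxB k3.2 h3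
    push_cast
    exact this

end pad

/-- the characters of a Selmer homomorphism -/
lemma exists_char {A B : ℤ} (hA : A ≠ 0) (hB : B ≠ 0) (hAB : A ≠ B) {a b c : ℚ}
    (hR : IsR (E A B) a b c) (hab : a ≠ b) (hac : a ≠ c) (hbc : b ≠ c)
    {f : (QB ≃ₐ[ℚ] QB) → Pt (E A B) QB} (hf : IsSel A B f) :
    ∃ e : ℤ, Squarefree e ∧ ∀ s : QB, s ^ 2 = e → ∀ σ : QB ≃ₐ[ℚ] QB, σ s = s ↔
      IsX ((E A B).baseChange QB) (algebraMap ℚ QB a) (f σ) := by
  obtain ⟨h1, h2, h3, h4⟩ := hf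
  have hinj : Function.Injective (algebraMap ℚ QB) := (algebraMap ℚ QB).injective
  obtain ⟨e, he, h5⟩ := Pool.Agent.TH841.SH.kum
    (fun σ => decide (¬ IsX ((E A B).baseChange QB) (algebraMap ℚ QB a) (f σ)))
    (h1.comp (fun T => decide (¬ IsX ((E A B).baseChange QB) (algebraMap ℚ QB a) T)))
    (fun σ τ => by
      have h6 := (hR.base QB).isX_add two_ne_zero (hinj.ne hab) (hinj.ne hac) (hinj.ne hbc)
        (h2 σ) (h2 τ)
      rw [← h3] at h6
      have key : ∀ P Q R : Prop, (P ↔ (Q ↔ R)) →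
          decide (¬ P) = xor (decide (¬ Q)) (decide (¬ R)) := by
        intro P Q R h
        by_cases hQ : Q <;> by_cases hR : R <;> simp [hQ, hR, h]
      exact key _ _ _ h6)
  refine ⟨e, he, fun s hs σ => ?_⟩
  rw [h5 s hs σ]
  simp

/-- SH1: Selmer homomorphisms and square classes -/
theorem sh1 (A B : ℤ) (hA : A ≠ 0) (hB : B ≠ 0) (hAB : A ≠ B) (hfin : (SelS A B).Finite) :
    {h | IsSel A B h}.Finite ∧ {h | IsSel A B h}.ncard ≤ (SelS A B).ncard := by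
  have hinj : Function.Injective (algebraMap ℚ QB) := (algebraMap ℚ QB).injective
  have hA' : (0 : ℚ) ≠ (A : ℚ) := fun h => hA (by exact_mod_cast h.symm)
  have hB' : (0 : ℚ) ≠ (B : ℚ) := fun h => hB (by exact_mod_cast h.symm)
  have hAB' : (A : ℚ) ≠ (B : ℚ) := fun h => hAB (by exact_mod_cast h)
  have hR := isR A B
  have ex1 : ∀ h, IsSel A B h → ∃ e : ℤ, Squarefree e ∧ ∀ s : QB, s ^ 2 = e →
      ∀ σ : QB ≃ₐ[ℚ] QB, σ s = s ↔
        IsX ((E A B).baseChange QB) (algebraMap ℚ QB 0) (h σ) := fun h hh =>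
    exists_char hA hB hAB hR hA' hB' hAB' hh
  have ex2 : ∀ h, IsSel A B h → ∃ e : ℤ, Squarefree e ∧ ∀ s : QB, s ^ 2 = e →
      ∀ σ : QB ≃ₐ[ℚ] QB, σ s = s ↔
        IsX ((E A B).baseChange QB) (algebraMap ℚ QB A) (h σ) := fun h hh =>
    exists_char hA hB hAB hR.swap hA'.symm hAB' hB' hh
  choose! ε1 hε1 using ex1
  choose! ε2 hε2 using ex2
  have sqr : ∀ e : ℤ, ∃ s : QB, s ^ 2 = (e : QB) := fun e =>
    IsAlgClosed.exists_pow_nat_eq (e : QB) (n := 2) (by norm_num)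
  have hmaps : Set.MapsTo (fun h => (ε1 h, ε2 h)) {h | IsSel A B h} (SelS A B) := by
    intro h hh
    have hh' : IsSel A B h := hh
    refine ⟨(hε1 h hh').1, (hε2 h hh').1, fun p _ hp2 => ?_⟩
    obtain ⟨s, hs⟩ := sqr (ε1 h)
    obtain ⟨s', hs'⟩ := sqr (ε2 h)
    apply locSol_of hp2
    obtain ⟨x0, y0, k1, k2, k3, k4, k5⟩ := big_point hp2 A B
    have key := Pool.Agent.TH841.SH.loc_step (K := ℚ_[p]) (Ω := AlgebraicClosure ℚ_[p])
      two_ne_zero two_ne_zero hR hA' hB' hAB' h hh'.2.1 (fun ι => hh'.2.2.2 p hp2 ι)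
      ⟨x0, y0, k1, by simpa using k2, by simpa using k3, by simpa using k4, by simpa using k5⟩
      (ε1 h) (ε2 h) s s' hs hs' (fun σ => (hε1 h hh').2 s hs σ) (fun σ => (hε2 h hh').2 s' hs' σ)
    simpa using key
  have hinj' : Set.InjOn (fun h => (ε1 h, ε2 h)) {h | IsSel A B h} := by
    intro h hh h' hh' he
    have hh1 : IsSel A B h := hh
    have hh2 : IsSel A B h' := hh'
    have g1 : ε1 h = ε1 h' := congrArg Prod.fst he
    have g2 : ε2 h = ε2 h' := congrArg Prod.snd he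
    obtain ⟨s, hs⟩ := sqr (ε1 h)
    obtain ⟨s', hs'⟩ := sqr (ε2 h)
    funext σ
    refine (hR.base QB).ext two_ne_zero (hinj.ne hA') (hinj.ne hB') (hinj.ne hAB')
      (hh1.2.1 σ) (hh2.2.1 σ) ?_ ?_
    · rw [← (hε1 h hh1).2 s hs σ, ← (hε1 h' hh2).2 s (by rw [← g1]; exact hs) σ]
    · rw [← (hε2 h hh1).2 s' hs' σ, ← (hε2 h' hh2).2 s' (by rw [← g2]; exact hs') σ]
  exact ⟨Set.Finite.of_injOn hmaps hinj' hfin,
    Set.ncard_le_ncard_of_injOn _ hmaps hinj' hfin⟩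

end Pool.Agent.U409.SH
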