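import Pool.Agent.U409.SH.Avg2
import Pool.Agent.U409.SH.Inv
import Pool.Agent.W307.RT.Main4

/-!
# The average of `2 ^ rank * #Ш[2]` over the curves with a subgroup `Z/2 x Z/4` or `Z/2 x Z/6`

Adapted from `Pool.Agent.W307.RT.Fam`, `Box`, `Main6`, `Main4`.
-/

set_option autoImplicit false

namespace Pool.Agent.U409.SH

open Finset Pool.Agent.W262.RK Pool.Agent.W307.RT
open Pool.Agent.W262.SH (E Sha)
open Pool.Agent.Y700 (VR)

/-- `PAR` with `2 ^ rank * #Ш[2]` -/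
def PAR' (m k : ℕ) (M N : ℤ → ℤ → ℤ) : Prop :=
  ∃ (C : ℕ) (F : ℤ × ℤ → ℤ × ℤ), ∀ H : ℕ, Set.InjOn F (Cv m H : Set (ℤ × ℤ)) ∧
    ∀ c ∈ Cv m H, IsCoprime (F c).1 (F c).2 ∧ M (F c).1 (F c).2 ≠ 0 ∧ N (F c).1 (F c).2 ≠ 0 ∧
      M (F c).1 (F c).2 ≠ N (F c).1 (F c).2 ∧
      (F c).1.natAbs ^ k ≤ C * H ∧ (F c).2.natAbs ^ k ≤ C * H ∧
      Fin2 (Sh c.1 c.2) ∧
      Qn (Sh c.1 c.2) = Qn (E (-(M (F c).1 (F c).2)) (-(N (F c).1 (F c).2)))

variable {J : Type} [Fintype J] [DecidableEq J]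

/-- the average over the box -/
lemma fam' (hA : AVG2') (cls : J → Fin 4) (a : Fin 3 → ℤ) (μ : J → ℕ) (α β : J → ℤ)
    (hcls : ∀ j, cls j ≠ 3) (ha : ∀ k, a k ≠ 0) (hμ : ∀ j, 1 ≤ μ j) (hα : ∀ j, α j ≠ 0)
    (hres : ∀ j l, j ≠ l → Res α β j l ≠ 0) (hev : ∀ k, Even (∑ l ∈ fc cls k, μ l))
    (hodd : ∀ j, Odd (μ j) ∨ IsSquare (kapM cls a μ α β j))
    (hid : ∀ u v : ℤ, FM cls a μ (fv α β u v) 0 - FM cls a μ (fv α β u v) 1 =
      FM cls a μ (fv α β u v) 2)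
    (hNB : ∃ z0 : ℕ, ∀ z, z0 ≤ z → ∃ C' : ℝ, ∀ y, z < y →
      ∑ s ∈ Tup J z y, NB cls (fun j _ => kapM cls a μ α β j) s *
        ∏ j, gw 1 (Fintype.card J) (s j) ≤ C' * (Real.log y) ^ (Fintype.card J))
    (q : ℕ) (M N : ℤ → ℤ → ℤ) (hM : ∀ u v, FM cls a μ (fv α β u v) 0 = -(M u (v + q * u)))
    (hN : ∀ u v, FM cls a μ (fv α β u v) 1 = -(N u (v + q * u))) :
    ∃ C : ℝ, 0 ≤ C ∧ ∀ T : ℕ, 1 ≤ T → ∑ t ∈ (Box T).filter (fun t : ℤ × ℤ =>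
      IsCoprime t.1 t.2 ∧ M t.1 t.2 ≠ 0 ∧ N t.1 t.2 ≠ 0 ∧ M t.1 t.2 ≠ N t.1 t.2),
      (qq (-(M t.1 t.2)) (-(N t.1 t.2)) : ℝ) ≤
        C * (T : ℝ) ^ 2 := by
  classical
  set g : ℤ × ℤ → ℝ := fun t => if IsCoprime t.1 t.2 ∧ M t.1 (t.2 + q * t.1) ≠ 0 ∧
    N t.1 (t.2 + q * t.1) ≠ 0 ∧ M t.1 (t.2 + q * t.1) ≠ N t.1 (t.2 + q * t.1) then
    (qq (-(M t.1 (t.2 + q * t.1))) (-(N t.1 (t.2 + q * t.1))) : ℝ) else 0 with hg
  have hg0 : ∀ t, 0 ≤ g t := by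
    intro t
    rw [hg]
    simp only
    split_ifs
    · positivity
    · exact le_rfl
  have hgc : ∀ t, g t ≠ 0 → IsCoprime t.1 t.2 := by
    intro t ht
    by_contra h
    apply ht
    rw [hg]
    simp only
    rw [if_neg (fun h' => h h'.1)]
  have hquad : ∀ e ∈ sgs, ∃ C : ℝ, ∀ X : ℕ, 1 ≤ X → ∑ t ∈ Icc 1 X ×ˢ Icc 1 X,
      g (e.1 * ((t.1 : ℕ) : ℤ), e.2 * ((t.2 : ℕ) : ℤ)) ≤ C * (X : ℝ) ^ 2 := by
    intro e he
    have he' := mem_sgs.1 he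
    have he1 : e.1 ≠ 0 := by rcases he'.1 with h | h <;> rw [h] <;> norm_num
    have he2 : e.2 ≠ 0 := by rcases he'.2 with h | h <;> rw [h] <;> norm_num
    have hk := fun j => kapM_sign cls a μ α β hev he j
    obtain ⟨C, hC⟩ := hA J cls a μ (fun j => e.1 * α j) (fun j => e.2 * β j) hcls ha hμ
      (fun j => mul_ne_zero he1 (hα j))
      (fun j l hjl => by
        rw [Res_sign]
        exact mul_ne_zero (mul_ne_zero he1 he2) (hres j l hjl)) hev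
      (fun j => by rw [hk j]; exact hodd j)
      (fun u v => by simp only [fv_sign]; exact hid _ _)
      (by
        have : (fun (j : J) (_ : Fin 3) => kapM cls a μ (fun j => e.1 * α j)
            (fun j => e.2 * β j) j) = fun (j : J) (_ : Fin 3) => kapM cls a μ α β j := by
          funext j _
          exact hk j
        rw [this]
        exact hNB)
    refine ⟨C, fun X hX => le_trans ?_ (hC X hX)⟩
    rw [sum_filter]
    apply sum_le_sum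
    intro t _
    rw [hg]
    simp only
    by_cases h : IsCoprime (e.1 * ((t.1 : ℕ) : ℤ)) (e.2 * ((t.2 : ℕ) : ℤ)) ∧
        M (e.1 * t.1) (e.2 * t.2 + q * (e.1 * t.1)) ≠ 0 ∧
        N (e.1 * t.1) (e.2 * t.2 + q * (e.1 * t.1)) ≠ 0 ∧
        M (e.1 * t.1) (e.2 * t.2 + q * (e.1 * t.1)) ≠ N (e.1 * t.1) (e.2 * t.2 + q * (e.1 * t.1))
    · rw [if_pos h, fv_sign, hM, hN, if_pos]
      refine ⟨?_, ?_⟩
      · have h1 := h.1
        rw [Int.isCoprime_iff_gcd_eq_one] at h1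
        have h2 : Int.gcd (e.1 * ((t.1 : ℕ) : ℤ)) (e.2 * ((t.2 : ℕ) : ℤ)) = Nat.gcd t.1 t.2 := by
          rcases he'.1 with h3 | h3 <;> rcases he'.2 with h4 | h4 <;> rw [h3, h4] <;> simp
        rw [h2] at h1
        exact h1
      · apply fv_ne_zero hcls hμ (a := a)
        have b0 := hM (e.1 * t.1) (e.2 * t.2)
        have b1 := hN (e.1 * t.1) (e.2 * t.2)
        have b2 := hid (e.1 * t.1) (e.2 * t.2)
        intro k
        fin_cases k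
        · change FM cls a μ _ 0 ≠ 0
          rw [b0]
          exact neg_ne_zero.2 h.2.1
        · change FM cls a μ _ 1 ≠ 0
          rw [b1]
          exact neg_ne_zero.2 h.2.2.1
        · change FM cls a μ _ 2 ≠ 0
          rw [← b2, b0, b1]
          intro h5
          exact h.2.2.2 (by linarith)
    · rw [if_neg h]
      split_ifs
      · positivity
      · exact le_rfl
  choose! Ce hCe using hquad
  set D : ℝ := g (0, 1) + g (0, -1) + g (1, 0) + g (-1, 0) with hD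
  have hD0 : 0 ≤ D := by
    have h1 := hg0 (0, 1)
    have h2 := hg0 (0, -1)
    have h3 := hg0 (1, 0)
    have h4 := hg0 (-1, 0)
    rw [hD]
    linarith
  have hS0 : 0 ≤ ∑ e ∈ sgs, |Ce e| := sum_nonneg fun _ _ => abs_nonneg _
  refine ⟨(∑ e ∈ sgs, |Ce e| + D) * ((q + 1 : ℕ) : ℝ) ^ 2, by positivity, fun T hT => ?_⟩
  have h1 := box_shift g hg0 q T
  have h2 := box_le g hg0 hgc ((q + 1) * T)
  have hX1 : 1 ≤ (q + 1) * T := Nat.mul_pos (Nat.succ_pos q) hT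
  have h3 : ∑ e ∈ sgs, ∑ t ∈ Icc 1 ((q + 1) * T) ×ˢ Icc 1 ((q + 1) * T),
      g (e.1 * ((t.1 : ℕ) : ℤ), e.2 * ((t.2 : ℕ) : ℤ)) ≤
      (∑ e ∈ sgs, |Ce e|) * (((q + 1) * T : ℕ) : ℝ) ^ 2 := by
    rw [sum_mul]
    apply sum_le_sum
    intro e he
    refine (hCe e he _ hX1).trans ?_
    exact mul_le_mul_of_nonneg_right (le_abs_self _) (by positivity)
  have h4 : D ≤ D * (((q + 1) * T : ℕ) : ℝ) ^ 2 := by
    apply le_mul_of_one_le_right hD0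
    apply one_le_pow₀
    exact_mod_cast hX1
  have h5 : ∑ t ∈ (Box T).filter (fun t : ℤ × ℤ =>
      IsCoprime t.1 t.2 ∧ M t.1 t.2 ≠ 0 ∧ N t.1 t.2 ≠ 0 ∧ M t.1 t.2 ≠ N t.1 t.2),
      (qq (-(M t.1 t.2)) (-(N t.1 t.2)) : ℝ) =
      ∑ t ∈ Box T, g (t.1, t.2 - q * t.1) := by
    rw [sum_filter]
    apply sum_congr rfl
    intro t _
    have h6 : t.2 - q * t.1 + q * t.1 = t.2 := by ring
    have h7 : IsCoprime t.1 (t.2 - q * t.1) ↔ IsCoprime t.1 t.2 := by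
      have : t.2 - q * t.1 = t.2 + (-(q : ℤ)) * t.1 := by ring
      rw [this]
      exact IsCoprime.add_mul_right_right_iff
    rw [hg]
    simp only
    rw [h6]
    simp only [h7]
  rw [h5]
  calc _ ≤ _ := h1
    _ ≤ _ := h2
    _ ≤ (∑ e ∈ sgs, |Ce e|) * (((q + 1) * T : ℕ) : ℝ) ^ 2 +
        D * (((q + 1) * T : ℕ) : ℝ) ^ 2 := add_le_add h3 h4
    _ = _ := by
      push_cast
      ring


/-- from the box to the curves -/
lemma final_of' {m k : ℕ} {M N : ℤ → ℤ → ℤ} (hk : 1 ≤ k) (hP : PAR' m k M N) (hL : LOW m k)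
    (hbox : ∃ C : ℝ, 0 ≤ C ∧ ∀ T : ℕ, 1 ≤ T → ∑ t ∈ (Box T).filter (fun t : ℤ × ℤ =>
      IsCoprime t.1 t.2 ∧ M t.1 t.2 ≠ 0 ∧ N t.1 t.2 ≠ 0 ∧ M t.1 t.2 ≠ N t.1 t.2),
      (qq (-(M t.1 t.2)) (-(N t.1 t.2)) : ℝ) ≤
        C * (T : ℝ) ^ 2) :
    ∃ C : ℝ, ∀ H : ℕ, ∑ c ∈ Cv m H,
      (Qn (Sh c.1 c.2) : ℝ) ≤ C * (Cv m H).card := by
  classical
  obtain ⟨C0', F, hF⟩ := hP
  obtain ⟨c, C1, T0, hc, hlow⟩ := hL
  obtain ⟨C, hC, hb⟩ := hbox
  set C0 := C0' + 1 with hC0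
  have hF' : ∀ H : ℕ, ∀ x ∈ Cv m H, (F x).1.natAbs ^ k ≤ C0 * H ∧ (F x).2.natAbs ^ k ≤ C0 * H := by
    intro H x hx
    obtain ⟨_, _, _, _, h1, h2, _, _⟩ := (hF H).2 x hx
    have : C0' * H ≤ C0 * H := Nat.mul_le_mul_right _ (by omega)
    exact ⟨h1.trans this, h2.trans this⟩
  set D := C0 * C1 + 1 with hD
  have hD1 : 1 ≤ D := by omega
  -- the sum is at most `C T ^ 2`
  have hsum : ∀ H T : ℕ, 1 ≤ T → (∀ x ∈ Cv m H, (F x).1.natAbs ≤ T ∧ (F x).2.natAbs ≤ T) →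
      ∑ x ∈ Cv m H, (Qn (Sh x.1 x.2) : ℝ) ≤ C * (T : ℝ) ^ 2 := by
    intro H T hT hx
    refine le_trans ?_ (hb T hT)
    obtain ⟨hinj, h2⟩ := hF H
    have h3 : ∑ x ∈ Cv m H, (Qn (Sh x.1 x.2) : ℝ) =
        ∑ t ∈ (Cv m H).image F, (qq (-(M t.1 t.2)) (-(N t.1 t.2)) : ℝ) := by
      rw [sum_image hinj]
      apply sum_congr rfl
      intro x hx'
      obtain ⟨_, _, _, _, _, _, _, h4⟩ := h2 x hx'
      rw [h4, qq_eq]
    rw [h3]
    apply sum_le_sum_of_subset_of_nonneg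
    · intro t ht
      obtain ⟨x, hx', rfl⟩ := mem_image.1 ht
      obtain ⟨a1, a2, a3, a4, _, _, _, _⟩ := h2 x hx'
      rw [mem_filter, mem_Box]
      exact ⟨hx x hx', a1, a2, a3, a4⟩
    · intro t _ _
      positivity
  refine ⟨C * ((D * (T0 + 1) : ℕ) : ℝ) ^ 2 + C * (2 * (D : ℝ)) ^ 2 / c, fun H => ?_⟩
  set K := (Cv m H).card with hK
  by_cases hK0 : K = 0
  · have : Cv m H = ∅ := card_eq_zero.1 hK0
    rw [this, sum_empty, hK0]
    simp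
  have hK1 : (1 : ℝ) ≤ K := by exact_mod_cast Nat.one_le_iff_ne_zero.2 hK0
  have hq0 : 0 ≤ C * (2 * (D : ℝ)) ^ 2 / c := by positivity
  have hr0 : 0 ≤ C * ((D * (T0 + 1) : ℕ) : ℝ) ^ 2 := by positivity
  set T := Nat.findGreatest (fun t => t ^ k ≤ C0 * H) (C0 * H) with hT
  have hle : ∀ x : ℕ, x ^ k ≤ C0 * H → x ≤ T := by
    intro x hx
    apply Nat.le_findGreatest
    · exact (Nat.le_self_pow (by omega) x).trans hx
    · exact hx
  have hTk : T ^ k ≤ C0 * H := by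
    have : (fun t => t ^ k ≤ C0 * H) T :=
      Nat.findGreatest_spec (P := fun t => t ^ k ≤ C0 * H) (Nat.zero_le _)
        (by rw [zero_pow (by omega)]; exact Nat.zero_le _)
    exact this
  have hxT : ∀ x ∈ Cv m H, (F x).1.natAbs ≤ T ∧ (F x).2.natAbs ≤ T := fun x hx =>
    ⟨hle _ (hF' H x hx).1, hle _ (hF' H x hx).2⟩
  rcases Nat.lt_or_ge T (D * (T0 + 1)) with hlt | hge
  · have h1 := hsum H (D * (T0 + 1)) (Nat.mul_pos hD1 (Nat.succ_pos _)) fun x hx =>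
      ⟨(hxT x hx).1.trans hlt.le, (hxT x hx).2.trans hlt.le⟩
    calc _ ≤ C * ((D * (T0 + 1) : ℕ) : ℝ) ^ 2 := h1
      _ ≤ C * ((D * (T0 + 1) : ℕ) : ℝ) ^ 2 * K := le_mul_of_one_le_right hr0 hK1
      _ ≤ _ := by
        apply mul_le_mul_of_nonneg_right _ (by linarith)
        linarith
  · have hT1 : 1 ≤ T := (Nat.mul_pos hD1 (Nat.succ_pos _)).trans_le hge
    have h1 := hsum H T hT1 hxT
    set T' := T / D with hT'
    have hT'0 : T0 + 1 ≤ T' := by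
      rw [hT', Nat.le_div_iff_mul_le hD1, mul_comm]
      exact hge
    have h2 : T' * D ≤ T := Nat.div_mul_le_self T D
    have h3 : C1 * T' ^ k ≤ H := by
      have a1 : (T' * D) ^ k ≤ C0 * H := (Nat.pow_le_pow_left h2 k).trans hTk
      rw [mul_pow] at a1
      have a2 : D ≤ D ^ k := Nat.le_self_pow (by omega) D
      have a3 : T' ^ k * (C0 * C1) ≤ C0 * H :=
        (Nat.mul_le_mul_left _ (by omega : C0 * C1 ≤ D ^ k)).trans a1
      have a4 : C0 * (C1 * T' ^ k) ≤ C0 * H := by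
        calc C0 * (C1 * T' ^ k) = T' ^ k * (C0 * C1) := by ring
          _ ≤ _ := a3
      exact Nat.le_of_mul_le_mul_left a4 (by omega)
    have h4 := hlow T' H (by omega) h3
    have h5 : T ≤ 2 * D * T' := by
      have a1 : T < D * (T' + 1) := by
        rw [mul_comm]
        exact Nat.lt_mul_of_div_lt (by rw [← hT']; omega) hD1
      have a2 : D * (T' + 1) ≤ 2 * D * T' := by nlinarith
      omega
    have h6 : (T : ℝ) ≤ 2 * D * T' := by exact_mod_cast h5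
    calc _ ≤ C * (T : ℝ) ^ 2 := h1
      _ ≤ C * (2 * D * T') ^ 2 := by
        apply mul_le_mul_of_nonneg_left _ hC
        exact pow_le_pow_left₀ (Nat.cast_nonneg T) h6 2
      _ = C * (2 * (D : ℝ)) ^ 2 / c * (c * (T' : ℝ) ^ 2) := by
        field_simp
      _ ≤ C * (2 * (D : ℝ)) ^ 2 / c * K := mul_le_mul_of_nonneg_left h4 hq0
      _ ≤ _ := by
        apply mul_le_mul_of_nonneg_right _ (by linarith)
        linarith

end Pool.Agent.U409.SH
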